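import Pool.Agent.Q274.BKC.Stm2

/-! # Project BKC, job B0: the exponent of two vanishes -/

set_option autoImplicit false

namespace Pool.Agent.Q26.BKC

open Pool.Agent.Q274.BKC
open scoped Classical

theorem nr_symm {p r : ℕ} (hp : p.Prime) (hr : r.Prime) (hp4 : p % 4 = 1) (hr4 : r % 4 = 1) :
    nr p r = nr r p := by
  haveI := Fact.mk hp
  haveI := Fact.mk hr
  have h1 : IsSquare ((r : ℕ) : ZMod p) ↔ IsSquare ((p : ℕ) : ZMod r) :=
    ZMod.exists_sq_eq_prime_iff_of_mod_four_eq_one hp4 (by rintro rfl; omega)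
  unfold nr
  by_cases h : IsSquare ((r : ℕ) : ZMod p)
  · rw [if_pos h, if_pos (h1.1 h)]
  · rw [if_neg h, if_neg fun h2 => h (h1.2 h2)]

theorem nr_two {p : ℕ} (hp : p.Prime) (hp4 : p % 4 = 1) : nr p 2 = if p % 8 = 5 then 1 else 0 := by
  haveI := Fact.mk hp
  have h1 : IsSquare ((2 : ℕ) : ZMod p) ↔ p % 8 = 1 ∨ p % 8 = 7 := by
    rw [Nat.cast_ofNat]
    exact ZMod.exists_sq_eq_two_iff (by rintro rfl; omega)
  unfold nr
  by_cases h : p % 8 = 5
  · rw [if_pos h, if_neg]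
    rw [h1]
    omega
  · rw [if_neg h, if_pos]
    rw [h1]
    omega

theorem prod_mod (S : Finset ℕ) (hS : ∀ p ∈ S, p % 4 = 1) :
    ((∏ p ∈ S, p) % 8 = 1 ∧ ∑ p ∈ S, (if p % 8 = 5 then 1 else 0 : ZMod 2) = 0) ∨
    ((∏ p ∈ S, p) % 8 = 5 ∧ ∑ p ∈ S, (if p % 8 = 5 then 1 else 0 : ZMod 2) = 1) := by
  induction S using Finset.induction_on with
  | empty => left; simp
  | insert a S ha ih =>
    rw [Finset.prod_insert ha, Finset.sum_insert ha]
    have h1 := hS a (Finset.mem_insert_self _ _)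
    have h2 : a % 8 = 1 ∨ a % 8 = 5 := by omega
    have h3 : (1 : ZMod 2) + 1 = 0 := rfl
    rcases ih (fun p hp => hS p (Finset.mem_insert_of_mem hp)) with ⟨h4, h5⟩ | ⟨h4, h5⟩ <;>
      rcases h2 with h6 | h6
    · left
      rw [Nat.mul_mod, h4, h5, h6]
      norm_num
    · right
      rw [Nat.mul_mod, h4, h5, h6]
      norm_num
    · right
      rw [Nat.mul_mod, h4, h5, h6]
      norm_num
    · left
      rw [Nat.mul_mod, h4, h5, h6]
      simp [h3]

/-- exchanging the sums -/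
theorem swap_sum (S G : Finset ℕ) (hG : G ⊆ S) (f : ℕ → ℕ → ZMod 2)
    (hf : ∀ i ∈ S, ∀ j ∈ S, f i j = f j i) :
    ∑ i ∈ S, ∑ p ∈ G.erase i, f i p = ∑ i ∈ G, ∑ r ∈ S.erase i, f i r := by
  have h1 : ∀ i, ∑ p ∈ G.erase i, f i p = ∑ p ∈ G, if p ≠ i then f i p else 0 := by
    intro i
    rw [← Finset.sum_filter]
    congr 1
    ext p
    simp [Finset.mem_erase, and_comm]
  have h2 : ∀ i, ∑ r ∈ S.erase i, f i r = ∑ r ∈ S, if r ≠ i then f i r else 0 := by
    intro i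
    rw [← Finset.sum_filter]
    congr 1
    ext p
    simp [Finset.mem_erase, and_comm]
  simp only [h1, h2]
  rw [Finset.sum_comm]
  refine Finset.sum_congr rfl fun p hp => Finset.sum_congr rfl fun i hi => ?_
  by_cases h : p = i
  · subst h
    simp
  · rw [if_pos h, if_pos (Ne.symm h), hf i hi p (hG hp)]

/-- JOB B0. -/
theorem t_B0 : S_B0 := by
  intro q D b G hq hq8 hC hG hrow hlast
  have hD0 : D ≠ 0 := hC.sqf.ne_zero
  have hpf : ∀ p ∈ D.primeFactors, p.Prime ∧ p % 4 = 1 := fun p hp =>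
    ⟨Nat.prime_of_mem_primeFactors hp, (hC.one p (Nat.prime_of_mem_primeFactors hp)
      (Nat.dvd_of_mem_primeFactors hp)).1⟩
  have hSP : SP q D ⊆ D.primeFactors := Finset.filter_subset _ _
  have hGP : G ⊆ D.primeFactors := hG.trans hSP
  have hsym : ∀ i ∈ D.primeFactors, ∀ j ∈ D.primeFactors, nr i j = nr j i := fun i hi j hj =>
    nr_symm (hpf i hi).1 (hpf j hj).1 (hpf i hi).2 (hpf j hj).2
  have hdis : Disjoint (SP q D) (D.primeFactors \ SP q D) := Finset.disjoint_sdiff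
  have hun : SP q D ∪ (D.primeFactors \ SP q D) = D.primeFactors :=
    Finset.union_sdiff_of_subset hSP
  -- the sum of the rows
  have h1 : ∑ i ∈ SP q D, (row q D G i + b * nr i 2) = 0 := Finset.sum_eq_zero hrow
  have h2 : ∑ i ∈ SP q D, row q D G i = ∑ i ∈ SP q D, ∑ p ∈ G.erase i, nr i p +
      ∑ i ∈ G, (∑ r ∈ (SP q D).erase i, nr i r + ∑ r ∈ D.primeFactors \ SP q D, nr i r + n4 q i) := by
    unfold row
    rw [Finset.sum_add_distrib]
    congr 1
    rw [← Finset.sum_filter]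
    have e : (SP q D).filter (fun i => i ∈ G) = G := by
      ext i
      simp only [Finset.mem_filter]
      exact ⟨fun h => h.2, fun h => ⟨hG h, h⟩⟩
    rw [e]
    refine Finset.sum_congr rfl fun i hi => ?_
    congr 1
    rw [← Finset.sum_union]
    · congr 1
      ext r
      simp only [Finset.mem_union, Finset.mem_erase, Finset.mem_sdiff]
      constructor
      · rintro ⟨h3, h4⟩
        by_cases h5 : r ∈ SP q D
        · exact Or.inl ⟨h3, h5⟩
        · exact Or.inr ⟨h4, h5⟩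
      · rintro (⟨h3, h4⟩ | ⟨h3, h4⟩)
        · exact ⟨h3, hSP h4⟩
        · exact ⟨fun h5 => h4 (h5 ▸ hG hi), h3⟩
    · exact Finset.disjoint_of_subset_left (Finset.erase_subset _ _) hdis
  have h3 := swap_sum (SP q D) G hG nr fun i hi j hj => hsym i (hSP hi) j (hSP hj)
  rw [Finset.sum_add_distrib, h2, h3, Finset.sum_add_distrib, Finset.sum_add_distrib, ← Finset.mul_sum] at h1
  rw [Finset.sum_add_distrib, ← Finset.mul_sum] at hlast
  have h4 : ∑ p ∈ D.primeFactors \ SP q D, ∑ p' ∈ G, nr p p' =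
      ∑ i ∈ G, ∑ r ∈ D.primeFactors \ SP q D, nr i r := by
    rw [Finset.sum_comm]
    refine Finset.sum_congr rfl fun i hi => Finset.sum_congr rfl fun r hr => ?_
    exact hsym r (Finset.mem_sdiff.1 hr).1 i (hGP hi)
  rw [h4] at hlast
  have h5 : ∑ p ∈ D.primeFactors, nr p 2 = ∑ i ∈ SP q D, nr i 2 +
      ∑ p ∈ D.primeFactors \ SP q D, nr p 2 := by
    rw [← Finset.sum_union hdis, hun]
  have h6 : ∑ p ∈ D.primeFactors, nr p 2 = ∑ p ∈ D.primeFactors, (if p % 8 = 5 then 1 else 0 : ZMod 2) :=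
    Finset.sum_congr rfl fun p hp => nr_two (hpf p hp).1 (hpf p hp).2
  have hprod : ∏ p ∈ D.primeFactors, p = D := Nat.prod_primeFactors_of_squarefree hC.sqf
  have h7 := prod_mod D.primeFactors fun p hp => (hpf p hp).2
  rw [hprod, ← h6, h5] at h7
  have hc := hC.cong
  have h2z : ∀ x : ZMod 2, x + x = 0 := by decide
  obtain ⟨X, hX⟩ : ∃ X, X = ∑ i ∈ SP q D, nr i 2 := ⟨_, rfl⟩
  obtain ⟨Y, hY⟩ : ∃ Y, Y = ∑ p ∈ D.primeFactors \ SP q D, nr p 2 := ⟨_, rfl⟩
  obtain ⟨U, hU⟩ : ∃ U, U = ∑ i ∈ G, ∑ r ∈ (SP q D).erase i, nr i r := ⟨_, rfl⟩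
  obtain ⟨V, hV⟩ : ∃ V, V = ∑ i ∈ G, ∑ r ∈ D.primeFactors \ SP q D, nr i r := ⟨_, rfl⟩
  obtain ⟨W, hW⟩ : ∃ W, W = ∑ i ∈ G, n4 q i := ⟨_, rfl⟩
  rw [← hX, ← hU, ← hV, ← hW] at h1
  rw [← hY, ← hV, ← hW] at hlast
  rw [← hX, ← hY] at h7
  have h8 : (b : ZMod 2) * (X + Y) + (if q % 16 = 7 then (b : ZMod 2) else 0) = 0 := by
    have := h2z U
    have := h2z V
    have := h2z W
    linear_combination h1 + hlast - h2z U - h2z V - h2z W
  have hq16 : q % 16 = 7 ∨ q % 16 = 15 := by omega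
  rcases hq16 with h9 | h9
  · rw [if_pos h9] at h8
    rcases h7 with ⟨h10, h11⟩ | ⟨h10, h11⟩
    · rw [h11] at h8
      linear_combination h8
    · exfalso
      omega
  · rw [if_neg (by omega)] at h8
    rcases h7 with ⟨h10, h11⟩ | ⟨h10, h11⟩
    · exfalso
      omega
    · rw [h11] at h8
      linear_combination h8

end Pool.Agent.Q26.BKC
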