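import Pool.Agent.Y676.Iso
import Pool.Agent.Y667.RP.Two

/-! # Project BKC: Hilbert symbols over the local fields -/

set_option autoImplicit false

namespace Pool.Agent.Q26.BKC

open Pool.Agent.Y676.HS
open Pool.Agent.W313.BMX (Splits splits_comm splits_mul_sq)
open scoped Classical

section odd

variable {p : ℕ} [hp : Fact p.Prime]

theorem int_ne_of_nd {m : ℤ} (hm : ¬ (p : ℤ) ∣ m) : (m : ℚ_[p]) ≠ 0 := by
  intro h
  have : m = 0 := by exact_mod_cast h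
  exact hm (this ▸ dvd_zero _)

theorem rep_x {x : ℚ_[p]} (hx : x ≠ 0) : ∃ (t : ℕ) (m : ℤ) (c : ℚ_[p]),
    t ≤ 1 ∧ ¬ (p : ℤ) ∣ m ∧ c ≠ 0 ∧ x = ((p ^ t * m : ℤ) : ℚ_[p]) * c ^ 2 ∧
      x.valuation = t + 2 * c.valuation := by
  obtain ⟨t, m, c, ht, hm, hc, h⟩ := Pool.Agent.W310.BMX.odd4 p x hx
  refine ⟨t, m, c, ht, hm, hc, h, ?_⟩
  have hp0 : (p : ℚ_[p]) ≠ 0 := Nat.cast_ne_zero.2 hp.out.ne_zero
  have hm0 := int_ne_of_nd hm
  rw [h]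
  push_cast
  rw [Padic.valuation_mul (mul_ne_zero (pow_ne_zero _ hp0) hm0) (pow_ne_zero _ hc),
    Padic.valuation_mul (pow_ne_zero _ hp0) hm0, Padic.valuation_pow, Padic.valuation_pow,
    Padic.valuation_p, Padic.valuation_intCast, padicValInt.eq_zero_of_not_dvd hm]
  push_cast
  ring

theorem rep_even {x : ℚ_[p]} (hx : x ≠ 0) (he : Even x.valuation) : ∃ (m : ℤ) (c : ℚ_[p]),
    ¬ (p : ℤ) ∣ m ∧ c ≠ 0 ∧ x = (m : ℚ_[p]) * c ^ 2 := by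
  obtain ⟨t, m, c, ht, hm, hc, h, hv⟩ := rep_x hx
  have ht0 : t = 0 := by
    rw [hv] at he
    rw [Int.even_iff] at he
    omega
  subst ht0
  exact ⟨m, c, hm, hc, by rw [h]; push_cast; ring⟩

theorem rep_odd {x : ℚ_[p]} (hx : x ≠ 0) (he : ¬ Even x.valuation) : ∃ (m : ℤ) (c : ℚ_[p]),
    ¬ (p : ℤ) ∣ m ∧ c ≠ 0 ∧ x = ((p * m : ℤ) : ℚ_[p]) * c ^ 2 := by
  obtain ⟨t, m, c, ht, hm, hc, h, hv⟩ := rep_x hx
  have ht0 : t = 1 := by
    rw [hv] at he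
    rw [Int.even_iff] at he
    omega
  subst ht0
  exact ⟨m, c, hm, hc, by rw [h]; push_cast; ring⟩

theorem even_of_sq {x : ℚ_[p]} (hx : x ≠ 0) (h : IsSquare x) : Even x.valuation := by
  obtain ⟨r, rfl⟩ := h
  have hr : r ≠ 0 := left_ne_zero_of_mul hx
  rw [Padic.valuation_mul hr hr]
  exact ⟨r.valuation, rfl⟩

theorem leg_of_sq {m : ℤ} (hm : ¬ (p : ℤ) ∣ m) (h : IsSquare (m : ℚ_[p])) : legendreSym p m = 1 := by
  rw [legendreSym.eq_one_iff p (fun h0 => hm ((ZMod.intCast_zmod_eq_zero_iff_dvd m p).1 h0))]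
  obtain ⟨r, hr⟩ := h
  have h1 : ‖r‖ ≤ 1 := by
    by_contra hcon
    push Not at hcon
    have h2 : ‖(m : ℚ_[p])‖ ≤ 1 := Padic.norm_int_le_one m
    rw [hr, norm_mul] at h2
    nlinarith
  obtain ⟨v, hv⟩ : ∃ v : ℤ_[p], (v : ℚ_[p]) = r := ⟨⟨r, h1⟩, rfl⟩
  have h2 : ((m : ℤ) : ℤ_[p]) = v * v := by
    apply Subtype.ext
    rw [PadicInt.coe_mul, hv]
    push_cast
    exact hr
  have h3 := congrArg (PadicInt.toZMod (p := p)) h2
  rw [map_mul, map_intCast] at h3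
  exact ⟨_, h3⟩

theorem sq_iff_leg (hp2 : p ≠ 2) {m : ℤ} (hm : ¬ (p : ℤ) ∣ m) :
    IsSquare (m : ℚ_[p]) ↔ legendreSym p m = 1 := by
  refine ⟨leg_of_sq hm, fun h => ?_⟩
  have := Pool.Agent.W335.BMX.isSquare_coe (Pool.Agent.W335.BMX.sq_of_residue' hp2 m hm h)
  simpa using this

theorem sq_iff_zmod (hp2 : p ≠ 2) {m : ℤ} (hm : ¬ (p : ℤ) ∣ m) :
    IsSquare (m : ℚ_[p]) ↔ IsSquare (m : ZMod p) := by
  rw [sq_iff_leg hp2 hm, legendreSym.eq_one_iff p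
    (fun h0 => hm ((ZMod.intCast_zmod_eq_zero_iff_dvd m p).1 h0))]

theorem sq_mul_sq_iff {F : Type} [Field F] {a c : F} (hc : c ≠ 0) : IsSquare (a * c ^ 2) ↔ IsSquare a := by
  constructor
  · rintro ⟨r, hr⟩
    refine ⟨r / c, ?_⟩
    field_simp
    linear_combination hr
  · rintro ⟨r, rfl⟩
    exact ⟨r * c, by ring⟩

theorem hs_mul_sq {F : Type} [Field F] {a b c : F} (hc : c ≠ 0) : hs (a * c ^ 2) b = hs a b := by
  rw [hs_eq_iff]
  exact splits_mul_sq hc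

theorem hs_mul_sq' {F : Type} [Field F] {a b c : F} (hc : c ≠ 0) : hs b (a * c ^ 2) = hs b a := by
  rw [hs_comm, hs_mul_sq hc, hs_comm]

theorem hs_of_sq {F : Type} [Field F] {a b : F} (h : IsSquare a) : hs a b = 1 := by
  rw [hs_one_iff]
  obtain ⟨r, rfl⟩ := h
  exact ⟨1, 0, r, Or.inl one_ne_zero, by ring⟩

theorem hs_of_sq' {F : Type} [Field F] {a b : F} (h : IsSquare b) : hs a b = 1 := by
  rw [hs_comm]
  exact hs_of_sq h

/-- units at an odd prime -/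
theorem hs_units (hp2 : p ≠ 2) {x w : ℚ_[p]} (hx : x ≠ 0) (hw : w ≠ 0) (ex : Even x.valuation)
    (ew : Even w.valuation) : hs x w = 1 := by
  obtain ⟨m, c, hm, hc, rfl⟩ := rep_even hx ex
  obtain ⟨n, d, hn, hd, rfl⟩ := rep_even hw ew
  rw [hs_mul_sq hc, hs_mul_sq' hd, hs_one_iff]
  exact Pool.Agent.W335.BMX.odd2 p hp2 m n hm hn

/-- a unit and any element at an odd prime -/
theorem hs_unit_val (hp2 : p ≠ 2) {x w : ℚ_[p]} (hx : x ≠ 0) (hw : w ≠ 0) (ew : Even w.valuation) :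
    hs x w = if IsSquare w ∨ Even x.valuation then 1 else -1 := by
  by_cases h1 : IsSquare w
  · rw [if_pos (Or.inl h1)]
    exact hs_of_sq' h1
  by_cases h2 : Even x.valuation
  · rw [if_pos (Or.inr h2)]
    exact hs_units hp2 hx hw h2 ew
  · rw [if_neg (not_or.2 ⟨h1, h2⟩)]
    obtain ⟨m, c, hm, hc, rfl⟩ := rep_odd hx h2
    obtain ⟨n, d, hn, hd, rfl⟩ := rep_even hw ew
    rw [sq_mul_sq_iff hd, sq_iff_leg hp2 hn] at h1
    rw [hs_mul_sq hc, hs_mul_sq' hd]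
    unfold hs
    rw [if_neg]
    intro h3
    exact h1 ((Pool.Agent.W335.BMX.odd3 p hp2 m n hm hn).1 h3)

end odd

section two

theorem norm_le8 {m : ℤ} : ‖(m : ℚ_[2])‖ ≤ 1 / 8 ↔ (8 : ℤ) ∣ m := by
  have := Padic.norm_int_le_pow_iff_dvd (p := 2) m 3
  rw [show ((2 : ℕ) : ℝ) ^ (-(3 : ℕ) : ℤ) = 1 / 8 by norm_num] at this
  rw [this]
  norm_num

theorem norm_le4 {m : ℤ} : ‖(m : ℚ_[2])‖ ≤ 1 / 4 ↔ (4 : ℤ) ∣ m := by
  have := Padic.norm_int_le_pow_iff_dvd (p := 2) m 2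
  rw [show ((2 : ℕ) : ℝ) ^ (-(2 : ℕ) : ℤ) = 1 / 4 by norm_num] at this
  rw [this]
  norm_num

theorem norm_le16 {m : ℤ} : ‖(m : ℚ_[2])‖ ≤ 1 / 16 ↔ (16 : ℤ) ∣ m := by
  have := Padic.norm_int_le_pow_iff_dvd (p := 2) m 4
  rw [show ((2 : ℕ) : ℝ) ^ (-(4 : ℕ) : ℤ) = 1 / 16 by norm_num] at this
  rw [this]
  norm_num

theorem norm_le2 {m : ℤ} : ‖(m : ℚ_[2])‖ ≤ 1 / 2 ↔ (2 : ℤ) ∣ m := by
  have := Padic.norm_int_le_pow_iff_dvd (p := 2) m 1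
  rw [show ((2 : ℕ) : ℝ) ^ (-(1 : ℕ) : ℤ) = 1 / 2 by norm_num] at this
  rw [this]
  norm_num

theorem norm_odd {m : ℤ} (hm : m % 2 = 1) : ‖(m : ℚ_[2])‖ = 1 := by
  have h1 : ¬ ((2 : ℕ) : ℤ) ∣ m := by
    push_cast
    omega
  refine le_antisymm (Padic.norm_int_le_one m) ?_
  by_contra h
  push Not at h
  exact h1 ((Padic.norm_intCast_lt_one_iff (k := m)).1 h)

/-- integer approximation of units -/
theorem unit_approx {u : ℚ_[2]} (hu : ‖u‖ = 1) : ∃ n : ℤ, n % 2 = 1 ∧ ‖u - n‖ ≤ 1 / 8 := by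
  obtain ⟨v, hv⟩ : ∃ v : ℤ_[2], (v : ℚ_[2]) = u := ⟨⟨u, hu.le⟩, rfl⟩
  have h1 := ((v - v.appr 3).norm_le_pow_iff_mem_span_pow 3).mpr (v.appr_spec 3)
  have h2 : ‖u - ((v.appr 3 : ℕ) : ℤ)‖ ≤ 1 / 8 := by
    rw [← hv]
    have e : ‖(v : ℚ_[2]) - (((v.appr 3 : ℕ) : ℤ) : ℚ_[2])‖ = ‖v - v.appr 3‖ := by
      rw [PadicInt.norm_def]
      push_cast
      rfl
    rw [e]
    refine h1.trans (le_of_eq ?_)
    norm_num
  refine ⟨(v.appr 3 : ℕ), ?_, h2⟩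
  by_contra hne
  have h3 : (2 : ℤ) ∣ ((v.appr 3 : ℕ) : ℤ) := by omega
  have h4 := norm_le2.2 h3
  have h5 : ‖u‖ ≤ 1 / 2 := by
    have e : u = (u - (((v.appr 3 : ℕ) : ℤ) : ℚ_[2])) + (((v.appr 3 : ℕ) : ℤ) : ℚ_[2]) := by ring
    rw [e]
    exact (Padic.nonarchimedean _ _).trans (max_le (by linarith) h4)
  rw [hu] at h5
  norm_num at h5

/-- a unit is an integer up to a square -/
theorem unit_class {u : ℚ_[2]} {n : ℤ} (hn : n % 2 = 1) (h : ‖u - n‖ ≤ 1 / 8) :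
    ∃ c : ℚ_[2], c ≠ 0 ∧ u = n * c ^ 2 := by
  have h1 := norm_odd hn
  have hn0 : (n : ℚ_[2]) ≠ 0 := by
    intro h0
    rw [h0, norm_zero] at h1
    norm_num at h1
  have h2 : ‖(u - n) / n‖ ≤ 1 / 8 := by
    rw [norm_div, h1, div_one]
    exact h
  obtain ⟨r, hr⟩ := Pool.Agent.Y667.RP.sq_near_one h2
  have h3 : u = n * r ^ 2 := by
    rw [sq, ← hr]
    field_simp
    ring
  refine ⟨r, ?_, h3⟩
  rintro rfl
  have h4 : u = 0 := by rw [h3]; ring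
  rw [h4, zero_sub, norm_neg, h1] at h
  norm_num at h

/-- a unit and a unit `1` modulo `4` at `2` -/
theorem hs_two {u w : ℚ_[2]} (hu : ‖u‖ = 1) (hw : ‖w - 1‖ ≤ 1 / 4) : hs u w = 1 := by
  have hw1 : ‖w‖ = 1 := by
    have e : w = (w - 1) + 1 := by ring
    have h3 : ‖(w - 1 : ℚ_[2])‖ ≠ ‖(1 : ℚ_[2])‖ := by
      rw [norm_one]
      intro h
      rw [h] at hw
      norm_num at hw
    rw [e, Padic.add_eq_max_of_ne h3, norm_one]
    exact max_eq_right (by linarith)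
  obtain ⟨n, hn, h1⟩ := unit_approx hu
  obtain ⟨m, hm, h2⟩ := unit_approx hw1
  obtain ⟨c, hc, e1⟩ := unit_class hn h1
  obtain ⟨d, hd, e2⟩ := unit_class hm h2
  have hm4 : m % 4 = 1 := by
    have h5 : ‖((m - 1 : ℤ) : ℚ_[2])‖ ≤ 1 / 4 := by
      have e : ((m - 1 : ℤ) : ℚ_[2]) = (w - 1) + (-(w - m)) := by
        push_cast
        ring
      rw [e]
      refine (Padic.nonarchimedean _ _).trans (max_le hw ?_)
      rw [norm_neg]
      linarith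
    have := norm_le4.1 h5
    omega
  rw [e1, e2, hs_mul_sq hc, hs_mul_sq' hd, hs_one_iff]
  exact Pool.Agent.W975.BMX.two2 n m hn hm4

/-- the square root of `-q` at `2` -/
theorem root_two {q : ℕ} (hq : q % 8 = 7) : ∃ t : ℚ_[2], t ^ 2 = -(q : ℚ_[2]) ∧ ‖t - 1‖ ≤ 1 / 4 := by
  have h1 : ‖((-(q : ℤ) - 1 : ℤ) : ℚ_[2])‖ ≤ 1 / 8 := norm_le8.2 (by omega)
  obtain ⟨t, ht⟩ := Pool.Agent.Y667.RP.sq_near_one h1
  have ht2 : t ^ 2 = -(q : ℚ_[2]) := by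
    rw [sq, ← ht]
    push_cast
    ring
  have hq1 : ‖((q : ℤ) : ℚ_[2])‖ = 1 := norm_odd (by omega)
  have ht1 : ‖t‖ = 1 := by
    have h3 : ‖t‖ ^ 2 = 1 := by
      rw [← norm_pow, ht2, norm_neg]
      exact_mod_cast hq1
    nlinarith [norm_nonneg t]
  obtain ⟨n, hn, h2⟩ := unit_approx ht1
  have h4 : n % 4 = 1 ∨ n % 4 = 3 := by omega
  rcases h4 with h4 | h4
  · refine ⟨t, ht2, ?_⟩
    have e : t - 1 = (t - n) + ((n - 1 : ℤ) : ℚ_[2]) := by push_cast; ring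
    rw [e]
    exact (Padic.nonarchimedean _ _).trans (max_le (by linarith) (norm_le4.2 (by omega)))
  · refine ⟨-t, by rw [neg_sq, ht2], ?_⟩
    have e : -t - 1 = -((t - n) + ((n + 1 : ℤ) : ℚ_[2])) := by push_cast; ring
    rw [e, norm_neg]
    exact (Padic.nonarchimedean _ _).trans (max_le (by linarith) (norm_le4.2 (by omega)))

/-- the symbol of `2` and `-t` -/
theorem hs_two_root {q : ℕ} (hq : q % 8 = 7) {t : ℚ_[2]} (ht : t ^ 2 = -(q : ℚ_[2]))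
    (ht1 : ‖t - 1‖ ≤ 1 / 4) : hs (2 : ℚ_[2]) (-t) = if q % 16 = 7 then -1 else 1 := by
  have hw1 : ‖t‖ = 1 := by
    have e : t = (t - 1) + 1 := by ring
    have h3 : ‖(t - 1 : ℚ_[2])‖ ≠ ‖(1 : ℚ_[2])‖ := by
      rw [norm_one]
      intro h
      rw [h] at ht1
      norm_num at ht1
    rw [e, Padic.add_eq_max_of_ne h3, norm_one]
    exact max_eq_right (by linarith)
  obtain ⟨n, hn, h2⟩ := unit_approx hw1
  have hn4 : n % 4 = 1 := by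
    have h5 : ‖((n - 1 : ℤ) : ℚ_[2])‖ ≤ 1 / 4 := by
      have e : ((n - 1 : ℤ) : ℚ_[2]) = (t - 1) + (-(t - n)) := by
        push_cast
        ring
      rw [e]
      refine (Padic.nonarchimedean _ _).trans (max_le ht1 ?_)
      rw [norm_neg]
      linarith
    have := norm_le4.1 h5
    omega
  have h16 : (16 : ℤ) ∣ q + n ^ 2 := by
    rw [← norm_le16]
    have e : ((q + n ^ 2 : ℤ) : ℚ_[2]) = -((t - n) * (t + n)) := by
      push_cast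
      linear_combination ht
    rw [e, norm_neg, norm_mul]
    have h6 : ‖t + n‖ ≤ 1 / 2 := by
      have e : t + n = (t - n) + ((2 * n : ℤ) : ℚ_[2]) := by push_cast; ring
      rw [e]
      exact (Padic.nonarchimedean _ _).trans (max_le (by linarith) (norm_le2.2 ⟨n, rfl⟩))
    calc ‖t - n‖ * ‖t + n‖ ≤ 1 / 8 * (1 / 2) := mul_le_mul h2 h6 (norm_nonneg _) (by norm_num)
      _ = 1 / 16 := by norm_num
  have h3 : ‖-t - ((-n : ℤ) : ℚ_[2])‖ ≤ 1 / 8 := by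
    have e : -t - ((-n : ℤ) : ℚ_[2]) = -(t - n) := by push_cast; ring
    rw [e, norm_neg]
    exact h2
  obtain ⟨c, hc, e1⟩ := unit_class (by omega : (-n) % 2 = 1) h3
  rw [e1, hs_mul_sq' hc, hs_comm]
  have key := (Pool.Agent.W108.BMX.two5 (-n) (by omega)).1
  obtain ⟨k, hk⟩ : ∃ k, n = 4 * k + 1 := ⟨n / 4, by omega⟩
  have hn2 : n ^ 2 = 16 * k ^ 2 + 8 * k + 1 := by rw [hk]; ring
  have hk2 : (q : ℤ) % 16 = 7 ↔ k % 2 = 1 := by
    obtain ⟨j, hj⟩ := h16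
    rw [hn2] at hj
    constructor
    · intro h
      omega
    · intro h
      omega
  unfold hs
  by_cases h : q % 16 = 7
  · have h7 : k % 2 = 1 := hk2.1 (by omega)
    rw [if_pos h, if_neg]
    intro h8
    have := key.1 h8
    omega
  · have h7 : ¬ k % 2 = 1 := fun h8 => h (by have := hk2.2 h8; omega)
    rw [if_neg h, if_pos]
    exact key.2 (by omega)

end two

end Pool.Agent.Q26.BKC
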