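import Pool.Agent.Q274.BKC.Stm2
import Pool.Agent.Q26.BKC.Loc

/-! # Project BKC, job E2: the relation from the product formula -/

set_option autoImplicit false

namespace Pool.Agent.Q26.BKC

open Pool.Agent.Y676.HS
open Pool.Agent.Q274.BKC
open scoped Classical

/-- the sign -/
def eps (x : ZMod 2) : ℤ := if x = 0 then 1 else -1

theorem eps_add (x y : ZMod 2) : eps (x + y) = eps x * eps y := by
  revert x y
  decide

theorem eps_one_iff (x : ZMod 2) : eps x = 1 ↔ x = 0 := by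
  revert x
  decide

theorem eps_sum {ι : Type*} (S : Finset ι) (f : ι → ZMod 2) : eps (∑ i ∈ S, f i) = ∏ i ∈ S, eps (f i) := by
  induction S using Finset.induction_on with
  | empty => simp [eps]
  | insert a S ha ih => rw [Finset.sum_insert ha, Finset.prod_insert ha, eps_add, ih]

theorem eps_nat (b : ℕ) (x : ZMod 2) : eps (b * x) = eps x ^ b := by
  induction b with
  | zero => simp [eps]
  | succ n ih =>
    rw [Nat.cast_succ, add_mul, one_mul, eps_add, ih, pow_succ]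

theorem val0 {p : ℕ} [hp : Fact p.Prime] {u : ℚ_[p]} (h : ‖u‖ = 1) : u.valuation = 0 := by
  have hu : u ≠ 0 := by
    rintro rfl
    rw [norm_zero] at h
    norm_num at h
  rw [Padic.norm_eq_zpow_neg_valuation hu] at h
  have h1 : (1 : ℝ) < (p : ℝ) := by exact_mod_cast hp.out.one_lt
  have h2 := (zpow_right_injective₀ (by linarith) h1.ne') (h.trans (zpow_zero (p : ℝ)).symm)
  omega

theorem norm_nd {p : ℕ} [hp : Fact p.Prime] {m : ℤ} (hm : ¬ (p : ℤ) ∣ m) : ‖(m : ℚ_[p])‖ = 1 := by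
  refine le_antisymm (Padic.norm_int_le_one m) ?_
  by_contra h
  push Not at h
  exact hm ((Padic.norm_intCast_lt_one_iff (k := m)).1 h)

theorem norm_root {p : ℕ} [hp : Fact p.Prime] {q : ℕ} (hq : ¬ p ∣ q) {t : ℚ_[p]} (ht : t ^ 2 = -(q : ℚ_[p])) :
    ‖t‖ = 1 := by
  have h1 : ‖((q : ℤ) : ℚ_[p])‖ = 1 := norm_nd (by exact_mod_cast hq)
  have h3 : ‖t‖ ^ 2 = 1 := by
    rw [← norm_pow, ht, norm_neg]
    exact_mod_cast h1
  nlinarith [norm_nonneg t]

section

variable {q : ℕ} {A B : ℚ}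

theorem N_fac {p : ℕ} [hp : Fact p.Prime] {t : ℚ_[p]} (ht : t ^ 2 = -(q : ℚ_[p])) :
    ((A ^ 2 + q * B ^ 2 : ℚ) : ℚ_[p]) = ((A : ℚ_[p]) + B * t) * ((A : ℚ_[p]) - B * t) := by
  push_cast
  linear_combination (B : ℚ_[p]) ^ 2 * ht

theorem N_ne {p : ℕ} [hp : Fact p.Prime] (hq : 0 < q) (hA : A ≠ 0) :
    ((A ^ 2 + q * B ^ 2 : ℚ) : ℚ_[p]) ≠ 0 := by
  have h1 : (0 : ℚ) < q := by exact_mod_cast hq
  have h2 : A ^ 2 + q * B ^ 2 ≠ 0 := by positivity
  exact_mod_cast h2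

/-- outside -/
theorem loc_out (h1 : S_H1) (h2 : S_H2) {D : ℕ} (hq : q.Prime) (hL : Loc q D A B) (p : ℕ) [hp : Fact p.Prime]
    (hpd : ¬ p ∣ 2 * q * D) : hh q A B p = 1 := by
  have hp2 : p ≠ 2 := by
    rintro rfl
    exact hpd ⟨q * D, by ring⟩
  have hpq : ¬ p ∣ q := fun h => hpd (Dvd.dvd.mul_right (Dvd.dvd.mul_left h 2) D)
  by_cases hs : ∃ t : ℚ_[p], t ^ 2 = -(q : ℚ_[p])
  · obtain ⟨t, ht⟩ := hs
    rw [h1 p q A B t hq.pos ht hL.neA hL.neB]
    have ht0 : t ≠ 0 := by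
      rintro rfl
      have := norm_root hpq ht
      rw [norm_zero] at this
      norm_num at this
    have key : ∀ τ : ℚ_[p], τ ^ 2 = -(q : ℚ_[p]) → Pool.Agent.Y676.HS.hs ((A : ℚ_[p]) + B * τ) τ = 1 := by
      intro τ hτ
      obtain ⟨a, u, ha, hu, he⟩ := hL.good p hpd τ hτ
      have hn := norm_root hpq hτ
      have hτ0 : τ ≠ 0 := by
        rintro rfl
        rw [norm_zero] at hn
        norm_num at hn
      have hu0 : u ≠ 0 := by
        rintro rfl
        rw [norm_zero] at hu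
        norm_num at hu
      rw [he, mul_comm, hs_mul_sq ha]
      exact hs_units hp2 hu0 hτ0 (by rw [val0 hu]; exact Even.zero) (by rw [val0 hn]; exact Even.zero)
    have k1 := key t ht
    have k2 := key (-t) (by rw [neg_sq, ht])
    rw [mul_neg, ← sub_eq_add_neg] at k2
    rw [k1, k2, one_mul]
  · push Not at hs
    rw [h2 p q A B hq.pos hp2 hpq hs hL.neA hL.neB, if_pos]
    right
    exact hL.goodi p hpd hs

/-- at the split primes of `D` -/
theorem loc_split (h1 : S_H1) {D : ℕ} (hq : q.Prime) (hC : Cl q D) (hA : A ≠ 0) (hB : B ≠ 0) {b : ℕ}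
    {G : Finset ℕ} {r : ℚ} (hG : G ⊆ SP q D) (hr : r ≠ 0)
    (hN : A ^ 2 + q * B ^ 2 = 2 ^ b * ((∏ p ∈ G, p : ℕ) : ℚ) * r ^ 2) (p : ℕ) [hp : Fact p.Prime]
    (hps : p ∈ SP q D) : hh q A B p = eps (if p ∈ G then n4 q p else 0) := by
  have hpD : p ∣ D := Nat.dvd_of_mem_primeFactors (Finset.mem_filter.1 hps).1
  have hsq : IsSquare (-(q : ZMod p)) := (Finset.mem_filter.1 hps).2
  obtain ⟨hp4, hpq⟩ := hC.one p hp.out hpD
  have hp2 : p ≠ 2 := by
    rintro rfl
    omega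
  have hpq' : ¬ p ∣ q := fun h => hpq ((Nat.prime_dvd_prime_iff_eq hp.out hq).1 h)
  have hnd : ¬ (p : ℤ) ∣ -(q : ℤ) := by
    rw [dvd_neg]
    exact_mod_cast hpq'
  have hsq' : IsSquare ((-(q : ℤ) : ℤ) : ℚ_[p]) := by
    rw [sq_iff_zmod hp2 hnd]
    push_cast
    exact hsq
  obtain ⟨t, ht'⟩ := hsq'
  have ht : t ^ 2 = -(q : ℚ_[p]) := by
    rw [sq, ← ht']
    push_cast
    rfl
  have hn := norm_root hpq' ht
  have ht0 : t ≠ 0 := by
    rintro rfl
    rw [norm_zero] at hn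
    norm_num at hn
  have hN0 := N_ne (p := p) (B := B) hq.pos hA
  rw [N_fac ht] at hN0
  have hP := left_ne_zero_of_mul hN0
  have hM := right_ne_zero_of_mul hN0
  -- `-1` is a square
  obtain ⟨i, hi⟩ : IsSquare ((-1 : ℤ) : ℚ_[p]) := by
    rw [sq_iff_zmod hp2 (by rw [dvd_neg]; exact fun h => hp.out.one_lt.ne' (by
      have := Int.eq_one_of_dvd_one (by positivity) h
      exact_mod_cast this))]
    push_cast
    exact ZMod.exists_sq_eq_neg_one_iff.2 (by omega)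
  push_cast at hi
  have hi0 : i ≠ 0 := by
    rintro rfl
    rw [mul_zero] at hi
    norm_num at hi
  have hneg : IsSquare (-t) ↔ IsSquare t := by
    have e : -t = t * i ^ 2 := by rw [sq, ← hi]; ring
    rw [e]
    exact sq_mul_sq_iff hi0
  rw [h1 p q A B t hq.pos ht hA hB, hs_unit_val hp2 hP ht0 (by rw [val0 hn]; exact Even.zero),
    hs_unit_val hp2 hM (neg_ne_zero.2 ht0) (by rw [val0 (by rw [norm_neg]; exact hn)]; exact Even.zero), hneg]
  -- fourth powers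
  have h4 : (∃ y : ZMod p, y ^ 4 = -(q : ZMod p)) ↔ IsSquare t := by
    obtain ⟨v, hv⟩ : ∃ v : ℤ_[p], (v : ℚ_[p]) = t := ⟨⟨t, hn.le⟩, rfl⟩
    have hv2 : v ^ 2 = ((-(q : ℤ) : ℤ) : ℤ_[p]) := by
      apply Subtype.ext
      rw [PadicInt.coe_pow, hv, ht]
      push_cast
      rfl
    have hz : (PadicInt.toZMod v) ^ 2 = -(q : ZMod p) := by
      rw [← map_pow, hv2, map_intCast]
      push_cast
      rfl
    have hz0 : PadicInt.toZMod v ≠ 0 := by
      intro h0
      rw [h0] at hz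
      have h5 : (q : ZMod p) = 0 := by
        linear_combination hz
      exact hpq' ((ZMod.natCast_eq_zero_iff q p).1 h5)
    constructor
    · rintro ⟨y, hy⟩
      have h6 : (y ^ 2 - PadicInt.toZMod v) * (y ^ 2 + PadicInt.toZMod v) = 0 := by
        linear_combination hy - hz
      rcases mul_eq_zero.1 h6 with h7 | h7
      · have := Pool.Agent.W335.BMX.isSquare_coe (Pool.Agent.W335.BMX.sq_of_residue hp2 v y (by
          rintro rfl
          apply hz0
          linear_combination -h7) (by linear_combination -h7))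
        rwa [hv] at this
      · rw [← hneg]
        have := Pool.Agent.W335.BMX.isSquare_coe (Pool.Agent.W335.BMX.sq_of_residue hp2 (-v) y (by
          rintro rfl
          apply hz0
          linear_combination h7) (by rw [map_neg]; linear_combination -h7))
        rwa [PadicInt.coe_neg, hv] at this
    · rintro ⟨z, hz'⟩
      have hz1 : ‖z‖ ≤ 1 := by
        by_contra hcon
        push Not at hcon
        rw [hz', norm_mul] at hn
        nlinarith
      obtain ⟨w, hw⟩ : ∃ w : ℤ_[p], (w : ℚ_[p]) = z := ⟨⟨z, hz1⟩, rfl⟩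
      have hvw : v = w * w := by
        apply Subtype.ext
        rw [PadicInt.coe_mul, hw, hv, hz']
      refine ⟨PadicInt.toZMod w, ?_⟩
      rw [← hz, hvw, map_mul]
      ring
  -- parity
  have hval : Even ((A : ℚ_[p]) + B * t).valuation ↔ (Even ((A : ℚ_[p]) - B * t).valuation ↔ p ∉ G) := by
    have e1 : ((A ^ 2 + q * B ^ 2 : ℚ) : ℚ_[p]) =
        ((2 ^ b : ℤ) : ℚ_[p]) * ((∏ p ∈ G, p : ℕ) : ℚ_[p]) * (r : ℚ_[p]) ^ 2 := by
      rw [hN]
      push_cast
      rfl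
    have hr' : (r : ℚ_[p]) ≠ 0 := by exact_mod_cast hr
    have h2b : ¬ (p : ℤ) ∣ 2 ^ b := by
      intro h
      have h8 := Int.Prime.dvd_pow' hp.out h
      have h9 : p ∣ 2 := by exact_mod_cast h8
      exact hp2 ((Nat.prime_dvd_prime_iff_eq hp.out Nat.prime_two).1 h9)
    have hGp : ∀ x ∈ G, x.Prime := fun x hx =>
      Nat.prime_of_mem_primeFactors (Finset.mem_filter.1 (hG hx)).1
    have hprod0 : (∏ p ∈ G, p : ℕ) ≠ 0 := Finset.prod_ne_zero_iff.2 fun x hx => (hGp x hx).ne_zero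
    have hprod0' : ((∏ p ∈ G, p : ℕ) : ℚ_[p]) ≠ 0 := by exact_mod_cast hprod0
    have hvp : (((∏ p ∈ G, p : ℕ) : ℚ_[p])).valuation = if p ∈ G then 1 else 0 := by
      rw [Padic.valuation_natCast]
      by_cases hpG : p ∈ G
      · rw [if_pos hpG, ← Finset.mul_prod_erase G (fun x => x) hpG]
        have h10 : ¬ p ∣ ∏ x ∈ G.erase p, x := by
          rw [Prime.dvd_finset_prod_iff hp.out.prime]
          rintro ⟨x, hx, hd⟩
          rw [Finset.mem_erase] at hx
          exact hx.1 ((Nat.prime_dvd_prime_iff_eq hp.out (hGp x hx.2)).1 hd).symm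
        have h11 : (∏ x ∈ G.erase p, x : ℕ) ≠ 0 := fun h0 => h10 (h0 ▸ dvd_zero _)
        rw [padicValNat.mul hp.out.ne_zero h11, padicValNat_self, padicValNat.eq_zero_of_not_dvd h10]
        norm_num
      · rw [if_neg hpG]
        have h10 : ¬ p ∣ ∏ x ∈ G, x := by
          rw [Prime.dvd_finset_prod_iff hp.out.prime]
          rintro ⟨x, hx, hd⟩
          exact hpG ((Nat.prime_dvd_prime_iff_eq hp.out (hGp x hx)).1 hd ▸ hx)
        rw [padicValNat.eq_zero_of_not_dvd h10]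
        norm_num
    have e2 := congrArg Padic.valuation e1
    rw [N_fac ht, Padic.valuation_mul hP hM, Padic.valuation_mul (mul_ne_zero (int_ne_of_nd h2b) hprod0')
      (pow_ne_zero _ hr'), Padic.valuation_mul (int_ne_of_nd h2b) hprod0', Padic.valuation_pow,
      Padic.valuation_intCast, padicValInt.eq_zero_of_not_dvd h2b, hvp] at e2
    rw [Int.even_iff, Int.even_iff]
    by_cases hpG : p ∈ G
    · rw [if_pos hpG] at e2
      simp only [hpG, not_true_eq_false, iff_false]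
      push_cast at e2
      omega
    · rw [if_neg hpG] at e2
      simp only [hpG, not_false_eq_true, iff_true]
      push_cast at e2
      omega
  unfold n4
  simp only [h4]
  by_cases c1 : IsSquare t
  · simp [c1, eps]
  · simp only [c1, false_or, if_false]
    by_cases c2 : p ∈ G
    · simp only [c2, not_true_eq_false, iff_false] at hval
      rw [if_pos c2]
      by_cases c3 : Even ((A : ℚ_[p]) - B * t).valuation
      · have c4 : ¬ Even ((A : ℚ_[p]) + B * t).valuation := fun h => hval.1 h c3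
        simp [c3, c4, eps]
      · have c4 : Even ((A : ℚ_[p]) + B * t).valuation := hval.2 c3
        simp [c3, c4, eps]
    · simp only [c2, not_false_eq_true, iff_true] at hval
      rw [if_neg c2]
      by_cases c3 : Even ((A : ℚ_[p]) - B * t).valuation
      · have c4 := hval.2 c3
        simp [c3, c4, eps]
      · have c4 : ¬ Even ((A : ℚ_[p]) + B * t).valuation := fun h => c3 (hval.1 h)
        simp [c3, c4, eps]

theorem eps_nr {p : ℕ} [hp : Fact p.Prime] {a : ℕ} (ha : ¬ p ∣ a) : eps (nr p a) = legendreSym p a := by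
  have h0 : ((a : ℤ) : ZMod p) ≠ 0 := by
    push_cast
    rw [Ne, ZMod.natCast_eq_zero_iff]
    exact ha
  unfold nr eps
  by_cases h : IsSquare (a : ZMod p)
  · rw [if_pos h, if_pos rfl]
    symm
    rw [legendreSym.eq_one_iff p h0]
    push_cast
    exact h
  · rw [if_neg h, if_neg (by decide)]
    symm
    rw [legendreSym.eq_neg_one_iff p]
    push_cast
    exact h

/-- at the inert primes of `D` -/
theorem loc_inert (h2 : S_H2) {D : ℕ} (hq : q.Prime) (hC : Cl q D) (hL : Loc q D A B) {b : ℕ}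
    {G : Finset ℕ} {r : ℚ} (hG : G ⊆ SP q D) (hr : r ≠ 0)
    (hN : A ^ 2 + q * B ^ 2 = 2 ^ b * ((∏ p ∈ G, p : ℕ) : ℚ) * r ^ 2) (p : ℕ) [hp : Fact p.Prime]
    (hpD : p ∣ D) (hps : p ∉ SP q D) : hh q A B p = eps (b * nr p 2 + ∑ p' ∈ G, nr p p') := by
  have hsq : ¬ IsSquare (-(q : ZMod p)) := fun h =>
    hps (Finset.mem_filter.2 ⟨Nat.mem_primeFactors.2 ⟨hp.out, hpD, hC.sqf.ne_zero⟩, h⟩)
  obtain ⟨hp4, hpq⟩ := hC.one p hp.out hpD
  have hp2 : p ≠ 2 := by
    rintro rfl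
    omega
  have hpq' : ¬ p ∣ q := fun h => hpq ((Nat.prime_dvd_prime_iff_eq hp.out hq).1 h)
  have hnd : ¬ (p : ℤ) ∣ -(q : ℤ) := by
    rw [dvd_neg]
    exact_mod_cast hpq'
  have hno : ∀ t : ℚ_[p], t ^ 2 ≠ -(q : ℚ_[p]) := by
    intro t ht
    apply hsq
    have h3 : IsSquare ((-(q : ℤ) : ℤ) : ℚ_[p]) := ⟨t, by push_cast; rw [← ht, sq]⟩
    rw [sq_iff_zmod hp2 hnd] at h3
    push_cast at h3
    exact h3
  obtain ⟨i, hi⟩ : IsSquare (-1 : ZMod p) := ZMod.exists_sq_eq_neg_one_iff.2 (by omega)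
  have hqs : ¬ IsSquare (q : ZMod p) := by
    rintro ⟨y, hy⟩
    exact hsq ⟨i * y, by rw [hy]; linear_combination (y * y) * hi⟩
  have hnd' : ¬ (p : ℤ) ∣ (q : ℤ) := by exact_mod_cast hpq'
  have hqs' : ¬ IsSquare ((q : ℤ) : ℚ_[p]) := by
    rw [sq_iff_zmod hp2 hnd']
    push_cast
    exact hqs
  have hGp : ∀ x ∈ G, x.Prime := fun x hx =>
    Nat.prime_of_mem_primeFactors (Finset.mem_filter.1 (hG hx)).1
  have hp2' : ¬ p ∣ 2 := fun h => hp2 ((Nat.prime_dvd_prime_iff_eq hp.out Nat.prime_two).1 h)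
  have hGn : ∀ x ∈ G, ¬ p ∣ x := fun x hx hd =>
    hps (hG ((Nat.prime_dvd_prime_iff_eq hp.out (hGp x hx)).1 hd ▸ hx))
  have hprod : ¬ p ∣ 2 ^ b * ∏ x ∈ G, x := by
    rw [hp.out.dvd_mul, Prime.dvd_finset_prod_iff hp.out.prime]
    rintro (h | ⟨x, hx, hd⟩)
    · exact hp2' (hp.out.dvd_of_dvd_pow h)
    · exact hGn x hx hd
  -- the right side is a Legendre symbol
  have hE : eps (b * nr p 2 + ∑ p' ∈ G, nr p p') = legendreSym p ((2 ^ b * ∏ x ∈ G, x : ℕ) : ℤ) := by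
    rw [eps_add, eps_nat, eps_sum, eps_nr hp2']
    have e3 : ∀ S : Finset ℕ, legendreSym p ((∏ x ∈ S, x : ℕ) : ℤ) = ∏ x ∈ S, legendreSym p (x : ℤ) := by
      intro S
      induction S using Finset.induction_on with
      | empty => simp
      | insert a S ha ih =>
        rw [Finset.prod_insert ha, Finset.prod_insert ha, Nat.cast_mul, legendreSym.mul, ih]
    have e4 : ∀ n : ℕ, legendreSym p ((2 ^ n : ℕ) : ℤ) = legendreSym p ((2 : ℕ) : ℤ) ^ n := by
      intro n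
      induction n with
      | zero => simp
      | succ n ih => rw [pow_succ, Nat.cast_mul, legendreSym.mul, ih, pow_succ]
    rw [Nat.cast_mul, legendreSym.mul, e3, e4]
    congr 1
    exact Finset.prod_congr rfl fun x hx => eps_nr (hGn x hx)
  have hr' : (r : ℚ_[p]) ≠ 0 := by exact_mod_cast hr
  have e1 : ((A ^ 2 + q * B ^ 2 : ℚ) : ℚ_[p]) =
      (((2 ^ b * ∏ x ∈ G, x : ℕ) : ℤ) : ℚ_[p]) * (r : ℚ_[p]) ^ 2 := by
    rw [hN]
    push_cast
    ring
  have hnd2 : ¬ (p : ℤ) ∣ ((2 ^ b * ∏ x ∈ G, x : ℕ) : ℤ) := by exact_mod_cast hprod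
  rw [h2 p q A B hq.pos hp2 hpq' hno hL.neA hL.neB, hE]
  rcases hL.inert p hpD hno with ⟨h5, h6⟩ | ⟨h5, h6⟩
  · rw [if_pos (Or.inr h5)]
    rw [e1, sq_mul_sq_iff hr', sq_iff_leg hp2 hnd2] at h6
    rw [h6]
  · rw [if_neg (by
      rintro (h7 | h7)
      · exact hqs h7
      · rw [← Int.not_even_iff_odd] at h5
        exact h5 h7)]
    have h8 : legendreSym p ((2 ^ b * ∏ x ∈ G, x : ℕ) : ℤ) ≠ 1 := by
      intro h9
      rw [← sq_iff_leg hp2 hnd2] at h9
      obtain ⟨y, hy⟩ := h9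
      apply hqs'
      have h10 : (((A ^ 2 + q * B ^ 2) * q : ℚ) : ℚ_[p]) = ((q : ℤ) : ℚ_[p]) * (y * r) ^ 2 := by
        rw [Rat.cast_mul, e1, hy]
        push_cast
        ring
      rw [h10] at h6
      have hy0 : y ≠ 0 := by
        rintro rfl
        rw [mul_zero] at hy
        exact int_ne_of_nd hnd2 hy
      exact (sq_mul_sq_iff (mul_ne_zero hy0 hr')).1 h6
    have h9 : ((((2 ^ b * ∏ x ∈ G, x : ℕ) : ℤ)) : ZMod p) ≠ 0 := fun h0 =>
      hnd2 ((ZMod.intCast_zmod_eq_zero_iff_dvd _ p).1 h0)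
    rcases legendreSym.eq_one_or_neg_one p h9 with h10 | h10
    · exact absurd h10 h8
    · rw [h10]

/-- at `2` -/
theorem loc_two (h1 : S_H1) {D : ℕ} (hq : q.Prime) (hq8 : q % 8 = 7) (hC : Cl q D) (hL : Loc q D A B) {b : ℕ}
    {G : Finset ℕ} {r : ℚ} (hG : G ⊆ SP q D) (hr : r ≠ 0)
    (hN : A ^ 2 + q * B ^ 2 = 2 ^ b * ((∏ p ∈ G, p : ℕ) : ℚ) * r ^ 2) :
    hh q A B 2 = eps (if q % 16 = 7 then (b : ZMod 2) else 0) := by
  obtain ⟨t, ht, ht1⟩ := root_two hq8
  have hw1 : ‖t‖ = 1 := norm_root (by omega) ht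
  have ht0 : t ≠ 0 := by
    rintro rfl
    rw [norm_zero] at hw1
    norm_num at hw1
  have hnt0 : -t ≠ 0 := neg_ne_zero.2 ht0
  have hnt1 : ‖-t‖ = 1 := by rw [norm_neg]; exact hw1
  have hN0 := N_ne (p := 2) (B := B) hq.pos hL.neA
  have hN0' := hN0
  rw [N_fac ht] at hN0
  have hP := left_ne_zero_of_mul hN0
  have hM := right_ne_zero_of_mul hN0
  have hm4 : ∀ S : Finset ℕ, (∀ x ∈ S, x % 4 = 1) → (∏ x ∈ S, x) % 4 = 1 := by
    intro S hS
    induction S using Finset.induction_on with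
    | empty => simp
    | insert a S ha ih =>
      rw [Finset.prod_insert ha, Nat.mul_mod, hS a (Finset.mem_insert_self _ _),
        ih fun x hx => hS x (Finset.mem_insert_of_mem hx)]
  have hDp : ∀ x ∈ D.primeFactors, x % 4 = 1 := fun x hx =>
    (hC.one x (Nat.prime_of_mem_primeFactors hx) (Nat.dvd_of_mem_primeFactors hx)).1
  have hD4 : D % 4 = 1 := by
    have := hm4 D.primeFactors hDp
    rwa [Nat.prod_primeFactors_of_squarefree hC.sqf] at this
  have hg4 : (∏ x ∈ G, x) % 4 = 1 := hm4 G fun x hx => hDp x (Finset.mem_filter.1 (hG hx)).1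
  have hcast : ∀ n : ℕ, n % 4 = 1 → ‖(n : ℚ_[2]) - 1‖ ≤ 1 / 4 := by
    intro n hn
    have : ‖((n - 1 : ℤ) : ℚ_[2])‖ ≤ 1 / 4 := norm_le4.2 (by omega)
    push_cast at this
    exact this
  have hunit : ∀ w : ℚ_[2], ‖w - 1‖ ≤ 1 / 4 → ‖w‖ = 1 := by
    intro w hw
    have e : w = (w - 1) + 1 := by ring
    have h3 : ‖(w - 1 : ℚ_[2])‖ ≠ ‖(1 : ℚ_[2])‖ := by
      rw [norm_one]
      intro h
      rw [h] at hw
      norm_num at hw
    rw [e, Padic.add_eq_max_of_ne h3, norm_one]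
    exact max_eq_right (by linarith)
  -- the class of `A + B t`
  obtain ⟨z, hz1, hz2⟩ : ∃ z : ℚ_[2], ‖z - 1‖ ≤ 1 / 4 ∧ IsSquare (((A : ℚ_[2]) + B * t) * z) := by
    rcases hL.two t ht ht1 with h3 | h3
    · exact ⟨1, by simp, by rw [mul_one]; exact h3⟩
    · refine ⟨D * t, ?_, h3⟩
      have e : (D : ℚ_[2]) * t - 1 = (D : ℚ_[2]) * (t - 1) + ((D : ℚ_[2]) - 1) := by ring
      rw [e]
      refine (Padic.nonarchimedean _ _).trans (max_le ?_ (hcast D hD4))
      rw [norm_mul, hunit _ (hcast D hD4), one_mul]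
      exact ht1
  have hzu := hunit z hz1
  have hz0 : z ≠ 0 := by
    rintro rfl
    rw [norm_zero] at hzu
    norm_num at hzu
  have k1 : Pool.Agent.Y676.HS.hs ((A : ℚ_[2]) + B * t) t = 1 := by
    rw [hs_cls hz0 hP hz2]
    exact hs_two hzu ht1
  have hgc : ‖((∏ x ∈ G, x : ℕ) : ℚ_[2]) - 1‖ ≤ 1 / 4 := hcast _ hg4
  have hgu := hunit _ hgc
  have hg0 : ((∏ x ∈ G, x : ℕ) : ℚ_[2]) ≠ 0 := by
    intro h0
    rw [h0, norm_zero] at hgu
    norm_num at hgu
  have hr' : (r : ℚ_[2]) ≠ 0 := by exact_mod_cast hr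
  have e1 : ((A ^ 2 + q * B ^ 2 : ℚ) : ℚ_[2]) =
      ((2 : ℚ_[2]) ^ b * ((∏ x ∈ G, x : ℕ) : ℚ_[2])) * (r : ℚ_[2]) ^ 2 := by
    rw [hN]
    push_cast
    ring
  have h20 : (2 : ℚ_[2]) ^ b ≠ 0 := pow_ne_zero _ two_ne_zero
  have hpow : ∀ n : ℕ, Pool.Agent.Y676.HS.hs ((2 : ℚ_[2]) ^ n) (-t) = (Pool.Agent.Y676.HS.hs (2 : ℚ_[2]) (-t)) ^ n := by
    intro n
    induction n with
    | zero =>
      rw [pow_zero, pow_zero]
      exact hs_of_sq ⟨1, by ring⟩
    | succ n ih =>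
      rw [pow_succ, hs_mul' (bl_padic 2) hnt0 (pow_ne_zero _ two_ne_zero) two_ne_zero, ih, pow_succ]
  have k2 : Pool.Agent.Y676.HS.hs ((A : ℚ_[2]) - B * t) (-t) = (Pool.Agent.Y676.HS.hs (2 : ℚ_[2]) (-t)) ^ b := by
    have h3 : IsSquare (((A : ℚ_[2]) - B * t) * (((A ^ 2 + q * B ^ 2 : ℚ) : ℚ_[2]) * z)) := by
      obtain ⟨y, hy⟩ := hz2
      refine ⟨((A : ℚ_[2]) - B * t) * y, ?_⟩
      rw [N_fac ht]
      linear_combination ((A : ℚ_[2]) - B * t) ^ 2 * hy
    rw [hs_cls (mul_ne_zero hN0' hz0) hM h3, hs_mul' (bl_padic 2) hnt0 hN0' hz0, hs_comm z,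
      hs_two hnt1 hz1, mul_one, e1, hs_mul_sq hr', hs_mul' (bl_padic 2) hnt0 h20 hg0,
      hs_comm ((∏ x ∈ G, x : ℕ) : ℚ_[2]), hs_two hnt1 hgc, mul_one, hpow]
  rw [h1 2 q A B t hq.pos ht hL.neA hL.neB, k1, k2, one_mul, hs_two_root hq8 ht ht1]
  by_cases h : q % 16 = 7
  · rw [if_pos h, if_pos h]
    have := eps_nat b 1
    rw [mul_one] at this
    rw [this]
    rfl
  · rw [if_neg h, if_neg h, one_pow]
    rfl

end

/-- JOB E2. -/
theorem t_E2 : S_E2 := by
  intro hPF h1 h2 h3 q D A B b G r hq hq8 hC hL hG hr hN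
  haveI : Fact q.Prime := ⟨hq⟩
  have hD0 : D ≠ 0 := hC.sqf.ne_zero
  have hq2 : q ≠ 2 := by rintro rfl; omega
  have hpf : ∀ p ∈ D.primeFactors, p.Prime ∧ p ∣ D ∧ p % 4 = 1 ∧ p ≠ q := fun p hp =>
    ⟨Nat.prime_of_mem_primeFactors hp, Nat.dvd_of_mem_primeFactors hp,
      hC.one p (Nat.prime_of_mem_primeFactors hp) (Nat.dvd_of_mem_primeFactors hp)⟩
  have h2n : (2 : ℕ) ∉ insert q D.primeFactors := by
    rw [Finset.mem_insert]
    rintro (h | h)
    · exact hq2 h.symm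
    · have := (hpf 2 h).2.2.1
      omega
  have hqn : q ∉ D.primeFactors := fun h => (hpf q h).2.2.2 rfl
  have hhn : ∀ (p : ℕ) (hp : p.Prime), hn q A B p = @hh q A B p ⟨hp⟩ := fun p hp => dif_pos hp
  have key := hPF q A B hq.pos hL.neA hL.neB (insert 2 (insert q D.primeFactors)) (fun p hp hpW => by
    rw [hhn p hp]
    haveI := Fact.mk hp
    apply loc_out h1 h2 hq hL p
    intro hd
    apply hpW
    rw [Finset.mem_insert, Finset.mem_insert]
    rcases (hp.dvd_mul).1 hd with h4 | h4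
    · rcases (hp.dvd_mul).1 h4 with h5 | h5
      · exact Or.inl ((Nat.prime_dvd_prime_iff_eq hp Nat.prime_two).1 h5)
      · exact Or.inr (Or.inl ((Nat.prime_dvd_prime_iff_eq hp hq).1 h5))
    · exact Or.inr (Or.inr (Nat.mem_primeFactors.2 ⟨hp, h4, hD0⟩)))
  rw [Finset.prod_insert h2n, Finset.prod_insert hqn] at key
  have e2 : hn q A B 2 = eps (if q % 16 = 7 then (b : ZMod 2) else 0) := by
    rw [hhn 2 Nat.prime_two]
    exact loc_two h1 hq hq8 hC hL hG hr hN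
  have eq' : hn q A B q = 1 := by
    rw [hhn q hq]
    obtain ⟨a', b', h4, h5⟩ := hL.ram
    exact h3 q A B a' b' hL.neA hL.neB h4 h5
  have hSP : SP q D ⊆ D.primeFactors := Finset.filter_subset _ _
  have e3 : ∏ p ∈ D.primeFactors, hn q A B p =
      eps (∑ p ∈ SP q D, (if p ∈ G then n4 q p else 0)) *
      eps (∑ p ∈ D.primeFactors \ SP q D, (b * nr p 2 + ∑ p' ∈ G, nr p p')) := by
    rw [← Finset.prod_sdiff hSP, eps_sum, eps_sum, mul_comm]
    congr 1
    · refine Finset.prod_congr rfl fun p hp => ?_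
      have hp' := (hpf p (hSP hp)).1
      rw [hhn p hp']
      haveI := Fact.mk hp'
      exact loc_split h1 hq hC hL.neA hL.neB hG hr hN p hp
    · refine Finset.prod_congr rfl fun p hp => ?_
      obtain ⟨hp1, hp2⟩ := Finset.mem_sdiff.1 hp
      have hp' := (hpf p hp1).1
      rw [hhn p hp']
      haveI := Fact.mk hp'
      exact loc_inert h2 hq hC hL hG hr hN p (hpf p hp1).2.1 hp2
  rw [e2, eq', e3, one_mul, ← eps_add, ← eps_add, eps_one_iff] at key
  have e4 : ∑ p ∈ SP q D, (if p ∈ G then n4 q p else 0) = ∑ p ∈ G, n4 q p := by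
    rw [← Finset.sum_filter]
    congr 1
    ext i
    simp only [Finset.mem_filter]
    exact ⟨fun h => h.2, fun h => ⟨hG h, h⟩⟩
  rw [e4] at key
  rw [add_comm] at key
  exact key

end Pool.Agent.Q26.BKC
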