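import Pool.Agent.Q274.BKC.Stm2

/-! # Project BKC, jobs H1 and H3: Hilbert symbols -/

set_option autoImplicit false

namespace Pool.Agent.Q26.BKC

open Pool.Agent.Y676.HS
open Pool.Agent.W313.BMX (Splits splits_comm splits_mul_sq)
open Pool.Agent.Q274.BKC

/-- the identity in a field with bilinear symbol -/
theorem h1_field {F : Type} [Field F] (hB : BL F) {a b t q : F} (ha : a ≠ 0) (hb : b ≠ 0) (ht : t ≠ 0)
    (htq : t ^ 2 = -q) (hP : a + b * t ≠ 0) (hM : a - b * t ≠ 0) :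
    hs (a ^ 2 + q * b ^ 2) (-(a * b)) * hs a q = hs (a + b * t) t * hs (a - b * t) (-t) := by
  have hnt : -t ≠ 0 := neg_ne_zero.2 ht
  have hab : -(a * b) ≠ 0 := neg_ne_zero.2 (mul_ne_zero ha hb)
  have h1 : hs (a * (a + b * t)) (-(a * b) * t) = 1 := hs_add (w := a) (by ring)
  have h2 : hs (a * (a - b * t)) (-(a * b) * (-t)) = 1 := hs_add (w := a) (by ring)
  have h3 : a ^ 2 + q * b ^ 2 = (a + b * t) * (a - b * t) := by
    linear_combination b ^ 2 * htq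
  have h4 : q = t * (-t) := by linear_combination htq
  rw [hs_mul hB (mul_ne_zero ha hP) hab ht, hs_mul' hB hab ha hP, hs_mul' hB ht ha hP] at h1
  rw [hs_mul hB (mul_ne_zero ha hM) hab hnt, hs_mul' hB hab ha hM, hs_mul' hB hnt ha hM] at h2
  rw [h3, hs_mul' hB hab hP hM]
  have h5 : hs a q = hs a t * hs a (-t) := by
    conv_lhs => rw [h4]
    exact hs_mul hB ha ht hnt
  rw [h5]
  have e1 := hs_sq a (-(a * b))
  have e2 := hs_sq (a + b * t) t
  have e3 := hs_sq (a - b * t) (-t)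
  have e4 : (hs a (-(a * b)) * hs a (-(a * b))) * (hs (a + b * t) (-(a * b)) * hs (a - b * t) (-(a * b)) *
      (hs a t * hs a (-t))) * (hs (a + b * t) t * hs (a - b * t) (-t)) = 1 := by
    calc _ = (hs a (-(a * b)) * hs (a + b * t) (-(a * b)) * (hs a t * hs (a + b * t) t)) *
        (hs a (-(a * b)) * hs (a - b * t) (-(a * b)) * (hs a (-t) * hs (a - b * t) (-t))) := by ring
      _ = 1 := by rw [h1, h2, mul_one]
  rw [e1, one_mul] at e4
  calc _ = (hs (a + b * t) (-(a * b)) * hs (a - b * t) (-(a * b)) * (hs a t * hs a (-t))) *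
        (hs (a + b * t) t * hs (a + b * t) t) * (hs (a - b * t) (-t) * hs (a - b * t) (-t)) := by
          rw [e2, e3, mul_one, mul_one]
    _ = ((hs (a + b * t) (-(a * b)) * hs (a - b * t) (-(a * b)) * (hs a t * hs a (-t))) *
        (hs (a + b * t) t * hs (a - b * t) (-t))) * (hs (a + b * t) t * hs (a - b * t) (-t)) := by ring
    _ = _ := by rw [e4, one_mul]

/-- JOB H1. -/
theorem t_H1 : S_H1 := by
  intro p _ q A B t hq ht hA hB
  have hA' : (A : ℚ_[p]) ≠ 0 := by exact_mod_cast hA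
  have hB' : (B : ℚ_[p]) ≠ 0 := by exact_mod_cast hB
  have hN : (A ^ 2 + q * B ^ 2 : ℚ) ≠ 0 := by
    have h1 : (0 : ℚ) < q := by exact_mod_cast hq
    positivity
  have hN' : (A : ℚ_[p]) ^ 2 + q * (B : ℚ_[p]) ^ 2 ≠ 0 := by exact_mod_cast hN
  have h3 : (A : ℚ_[p]) ^ 2 + q * (B : ℚ_[p]) ^ 2 = ((A : ℚ_[p]) + B * t) * ((A : ℚ_[p]) - B * t) := by
    linear_combination (B : ℚ_[p]) ^ 2 * ht
  rw [h3] at hN'
  have hq' : (q : ℚ_[p]) ≠ 0 := by exact_mod_cast hq.ne'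
  have ht0 : t ≠ 0 := by
    rintro rfl
    apply hq'
    linear_combination ht
  have key := h1_field (bl_padic p) hA' hB' ht0 ht (left_ne_zero_of_mul hN') (right_ne_zero_of_mul hN')
  unfold hh
  rw [← key]
  push_cast
  rfl

/-- JOB H3. -/
theorem t_H3 : S_H3 := by
  intro q _ A B a b hA hB h1 h2
  have hN : (A ^ 2 + q * B ^ 2 : ℚ) ≠ 0 := by
    have hq : (0 : ℚ) < q := by exact_mod_cast (Fact.out : q.Prime).pos
    positivity
  have hA' : (A : ℚ_[q]) ≠ 0 := by exact_mod_cast hA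
  have e1 : (((A ^ 2 + q * B ^ 2 : ℚ)) : ℚ_[q]) = (a ^ 2 + q * b ^ 2) ^ 2 := by
    push_cast
    rw [h1, h2]
    ring
  unfold hh
  have e2 : hs (((A ^ 2 + q * B ^ 2 : ℚ)) : ℚ_[q]) ((-(A * B) : ℚ) : ℚ_[q]) = 1 := by
    rw [hs_one_iff, e1]
    exact ⟨1, 0, a ^ 2 + q * b ^ 2, Or.inl one_ne_zero, by ring⟩
  have e3 : hs ((A : ℚ) : ℚ_[q]) ((q : ℚ) : ℚ_[q]) = 1 := by
    rw [hs_one_iff]
    refine ⟨1, b, a, Or.inl one_ne_zero, ?_⟩
    rw [h1]
    push_cast
    ring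
  rw [e2, e3, one_mul]

end Pool.Agent.Q26.BKC
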