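import Pool.Agent.Q274.BKC.Stm2
import Pool.Agent.Q263.CN.Disc

/-! # Project BKC, job INT: integrality of the generators -/

set_option autoImplicit false

namespace Pool.Agent.Q26.BKC

open NumberField IsDedekindDomain
open Pool.Agent.Q274.BKC

/-- the norm of a prime not containing `2` is odd -/
theorem odd_absNorm {K : Type} [Field K] [NumberField K] (v : HeightOneSpectrum (𝓞 K))
    (hv : (2 : 𝓞 K) ∉ v.asIdeal) : Odd (Ideal.absNorm v.asIdeal) := by
  have hmax : v.asIdeal.IsMaximal := v.isMaximal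
  letI := Ideal.Quotient.field v.asIdeal
  haveI : Finite (𝓞 K ⧸ v.asIdeal) := Ideal.finiteQuotientOfFreeOfNeBot _ v.ne_bot
  letI : Fintype (𝓞 K ⧸ v.asIdeal) := Fintype.ofFinite _
  rw [Ideal.absNorm_apply, Submodule.cardQuot_apply, Nat.card_eq_fintype_card, Nat.odd_iff]
  apply FiniteField.odd_card_of_char_ne_two
  intro h
  apply hv
  rw [← Ideal.Quotient.eq_zero_iff_mem, map_ofNat]
  have h2 : ((ringChar (𝓞 K ⧸ v.asIdeal) : ℕ) : 𝓞 K ⧸ v.asIdeal) = 0 := ringChar.Nat.cast_ringChar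
  rw [h] at h2
  exact_mod_cast h2

theorem par8 {t k N : ℤ} {q : ℕ} (hq : q % 8 = 7) (h : t ^ 2 + q * k ^ 2 = 4 * N) (hN : Odd N) :
    (2 ∣ t) ∧ (2 ∣ k) := by
  obtain ⟨j, hj⟩ := hN
  have h1 : ((t : ZMod 8)) ^ 2 + 7 * (k : ZMod 8) ^ 2 = 4 := by
    have h2 : ((t ^ 2 + q * k ^ 2 : ℤ) : ZMod 8) = ((4 * N : ℤ) : ZMod 8) := by rw [h]
    have h3 : ((q : ℕ) : ZMod 8) = 7 := by
      have : ((q : ℕ) : ZMod 8) = ((q % 8 : ℕ) : ZMod 8) := (ZMod.natCast_mod q 8).symm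
      rw [this, hq]
      rfl
    have h4 : ((4 * N : ℤ) : ZMod 8) = 4 := by
      rw [hj]
      have e : (4 * (2 * j + 1) : ℤ) = 8 * j + 4 := by ring
      rw [e]
      push_cast
      have : (8 : ZMod 8) = 0 := rfl
      rw [this]
      ring
    rw [h4] at h2
    push_cast at h2
    rw [h3] at h2
    exact h2
  have h5 : ∀ x y : ZMod 8, x ^ 2 + 7 * y ^ 2 = 4 → 4 * x = 0 ∧ 4 * y = 0 := by decide
  obtain ⟨h6, h7⟩ := h5 _ _ h1
  constructor
  · have h8 : ((4 * t : ℤ) : ZMod 8) = 0 := by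
      push_cast
      exact h6
    have h9 := (ZMod.intCast_zmod_eq_zero_iff_dvd (4 * t) 8).1 h8
    omega
  · have h8 : ((4 * k : ℤ) : ZMod 8) = 0 := by
      push_cast
      exact h7
    have h9 := (ZMod.intCast_zmod_eq_zero_iff_dvd (4 * k) 8).1 h8
    omega

/-- JOB INT. -/
theorem t_INT : S_INT := by
  intro K _ _ q s hq hq8 hs h2 v n β hv hβ
  have hsq : Squarefree (-(q : ℤ)) := by
    have h3 : Squarefree (q : ℤ) := by
      rw [Int.squarefree_natCast]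
      exact hq.squarefree
    exact (neg_one_mul (q : ℤ)) ▸ (squarefree_mul_iff.2 ⟨isUnit_neg_one.isRelPrime_left,
      isUnit_neg_one.squarefree, h3⟩)
  have hx : s ^ 2 = ((-(q : ℤ) : ℤ) : K) := by
    push_cast
    exact hs
  obtain ⟨b, h0, h1⟩ := Q263.CN.exists_basis (d := -(q : ℤ)) (by omega) hsq h2 s hx
  obtain ⟨t, k, e1, e2⟩ := Q263.CN.int_coord' hx b h0 h1 hsq β
  have h3 : (Ideal.absNorm v.asIdeal) ^ n = (Algebra.norm ℤ β).natAbs := by
    rw [← map_pow, hβ, Ideal.absNorm_span_singleton]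
  have hodd : Odd (Algebra.norm ℤ β) := by
    rw [← Int.natAbs_odd, ← h3]
    exact (odd_absNorm v hv).pow
  obtain ⟨⟨a, ha⟩, ⟨c, hc⟩⟩ := par8 (t := t) (k := k) (N := Algebra.norm ℤ β) hq8 (by linarith) hodd
  refine ⟨a, c, ?_⟩
  rw [e1, ha, hc]
  push_cast
  field_simp

end Pool.Agent.Q26.BKC
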