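import Pool.Agent.Q26.BKC.QRb
import Pool.Agent.Q26.BKC.INT

/-! # Project BKC, job QR: the reciprocity law -/

set_option autoImplicit false

namespace Pool.Agent.Q26.BKC

open NumberField IsDedekindDomain
open Pool.Agent.Q274.BKC
open scoped Classical

theorem pow_coord {R : Type} [CommRing R] {S : R} {q : ℕ} (hS : S ^ 2 = -(q : R)) (σ : ℤ) (n : ℕ) :
    ∃ P Q : ℤ, (S - σ) ^ n = P + Q * S ∧ (-S - σ) ^ n = P - Q * S := by
  induction n with
  | zero => exact ⟨1, 0, by simp, by simp⟩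
  | succ n ih =>
    obtain ⟨P, Q, h1, h2⟩ := ih
    refine ⟨-σ * P - q * Q, P - σ * Q, ?_, ?_⟩
    · rw [pow_succ, h1]
      push_cast
      linear_combination (Q : R) * hS
    · rw [pow_succ, h2]
      push_cast
      linear_combination (Q : R) * hS

theorem coord_zero {K : Type} [Field K] [CharZero K] {q : ℕ} (hq : 0 < q) {s : K} (hs : s ^ 2 = -(q : K))
    {a b : ℚ} (h : (a : K) + b * s = 0) : a = 0 ∧ b = 0 := by
  have h1 : ((a ^ 2 + q * b ^ 2 : ℚ) : K) = 0 := by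
    push_cast
    linear_combination ((a : K) - b * s) * h + (b : K) ^ 2 * hs
  have h2 : a ^ 2 + q * b ^ 2 = 0 := by exact_mod_cast h1
  have hq' : (0 : ℚ) < q := by exact_mod_cast hq
  have h3 : a ^ 2 = 0 := by nlinarith [sq_nonneg a, sq_nonneg b, mul_nonneg hq'.le (sq_nonneg b)]
  have h4 : (q : ℚ) * b ^ 2 = 0 := by linarith
  refine ⟨pow_eq_zero_iff two_ne_zero |>.1 h3, ?_⟩
  rcases mul_eq_zero.1 h4 with h5 | h5
  · exact absurd h5 hq'.ne'
  · exact pow_eq_zero_iff two_ne_zero |>.1 h5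

/-- JOB QR. -/
theorem t_QR : S_QR := by
  intro hPF h1 h2 K _ _ q D s t hq hq8 hC hs hfr ht ht3 v n A B β S e hv hn hβ hβe hS he heq
  have hq0 : 0 < q := hq.pos
  have hsq : Squarefree (-(q : ℤ)) := by
    have h3 : Squarefree (q : ℤ) := by
      rw [Int.squarefree_natCast]
      exact hq.squarefree
    exact (neg_one_mul (q : ℤ)) ▸ (squarefree_mul_iff.2 ⟨isUnit_neg_one.isRelPrime_left,
      isUnit_neg_one.squarefree, h3⟩)
  have hx : s ^ 2 = ((-(q : ℤ) : ℤ) : K) := by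
    push_cast
    exact hs
  obtain ⟨bb, hb0, hb1⟩ := Q263.CN.exists_basis (d := -(q : ℤ)) (by omega) hsq hfr s hx
  have cS : algebraMap (𝓞 K) K S = s := hS
  have inj : Function.Injective (algebraMap (𝓞 K) K) := RingOfIntegers.coe_injective
  have hS2 : S ^ 2 = -(q : 𝓞 K) := by
    apply inj
    rw [map_pow, cS, map_neg, map_natCast]
    exact hs
  have hβS : β = A + B * S := by
    apply inj
    rw [map_add, map_mul, map_intCast, map_intCast, cS]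
    exact hβe
  -- the norm
  have hnorm : Algebra.norm ℤ β = A ^ 2 + q * B ^ 2 := by
    have h3 : (Algebra.norm ℤ β : ℚ) = (A : ℚ) ^ 2 - ((-(q : ℤ) : ℤ) : ℚ) * (B : ℚ) ^ 2 := by
      rw [Algebra.coe_norm_int, hβe]
      have := Q263.CN.nm hx bb hb0 hb1 (A : ℚ) (B : ℚ)
      rw [Rat.cast_intCast, Rat.cast_intCast] at this
      exact this
    push_cast at h3
    have h4 : ((Algebra.norm ℤ β : ℤ) : ℚ) = ((A ^ 2 + q * B ^ 2 : ℤ) : ℚ) := by
      rw [h3]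
      push_cast
      ring
    exact_mod_cast h4
  have hnn : 0 ≤ A ^ 2 + q * B ^ 2 := by positivity
  have hNv : A ^ 2 + q * B ^ 2 = (((Ideal.absNorm v.asIdeal) ^ n : ℕ) : ℤ) := by
    rw [← map_pow, hβ, Ideal.absNorm_span_singleton, hnorm]
    exact (Int.natAbs_of_nonneg hnn).symm
  -- the residue field
  have hmax : v.asIdeal.IsMaximal := v.isMaximal
  letI : Field (𝓞 K ⧸ v.asIdeal) := Ideal.Quotient.field v.asIdeal
  haveI : Finite (𝓞 K ⧸ v.asIdeal) := Ideal.finiteQuotientOfFreeOfNeBot _ v.ne_bot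
  letI : Fintype (𝓞 K ⧸ v.asIdeal) := Fintype.ofFinite _
  obtain ⟨mk, hmk⟩ : ∃ mk : 𝓞 K →+* (𝓞 K ⧸ v.asIdeal), mk = Ideal.Quotient.mk v.asIdeal := ⟨_, rfl⟩
  have hmk0 : ∀ x : 𝓞 K, mk x = 0 ↔ x ∈ v.asIdeal := by
    intro x
    rw [hmk]
    exact Ideal.Quotient.eq_zero_iff_mem
  have hmks : Function.Surjective mk := by
    rw [hmk]
    exact Ideal.Quotient.mk_surjective
  have hcard : Fintype.card (𝓞 K ⧸ v.asIdeal) = Ideal.absNorm v.asIdeal := by
    rw [Ideal.absNorm_apply, Submodule.cardQuot_apply, Nat.card_eq_fintype_card]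
  obtain ⟨l, hl⟩ : ∃ l : ℕ, l = ringChar (𝓞 K ⧸ v.asIdeal) := ⟨_, rfl⟩
  haveI hchar : CharP (𝓞 K ⧸ v.asIdeal) l := by
    rw [hl]
    exact ringChar.charP _
  have hlp : l.Prime := by
    rcases CharP.char_is_prime_or_zero (𝓞 K ⧸ v.asIdeal) l with h | h
    · exact h
    · exfalso
      subst h
      haveI : CharZero (𝓞 K ⧸ v.asIdeal) := CharP.charP_to_charZero _
      exact not_finite (𝓞 K ⧸ v.asIdeal)
  haveI : Fact l.Prime := ⟨hlp⟩
  have hint : ∀ a : ℤ, (a : 𝓞 K ⧸ v.asIdeal) = 0 ↔ (l : ℤ) ∣ a := fun a => CharP.intCast_eq_zero_iff _ l a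
  have hnat : ∀ a : ℕ, ((a : ℕ) : 𝓞 K ⧸ v.asIdeal) = 0 ↔ l ∣ a := fun a => CharP.cast_eq_zero_iff _ l a
  have hlnd : ¬ l ∣ 2 * q * D := by
    intro h
    apply hv
    rw [← hmk0, map_natCast, hnat]
    exact h
  have hl2 : l ≠ 2 := by
    rintro rfl
    exact hlnd ⟨q * D, by ring⟩
  have hlq : l ≠ q := by
    rintro rfl
    exact hlnd ⟨2 * D, by ring⟩
  have hlD : ¬ l ∣ D := fun h => hlnd (Dvd.dvd.mul_left h _)
  have hlq' : ¬ l ∣ q := fun h => hlq ((Nat.prime_dvd_prime_iff_eq hlp hq).1 h)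
  have h2F : (2 : 𝓞 K ⧸ v.asIdeal) ≠ 0 := two_ne (l := l) hl2
  have hsb : (mk S) ^ 2 = -(q : 𝓞 K ⧸ v.asIdeal) := by
    rw [← map_pow, hS2, map_neg, map_natCast]
  have hsb0 : mk S ≠ 0 := by
    intro h0
    rw [h0] at hsb
    apply hlq'
    rw [← hnat]
    linear_combination hsb
  have hsp : ∀ x : 𝓞 K ⧸ v.asIdeal, ∃ a b : ℤ, 2 * x = a + b * mk S := by
    intro x
    obtain ⟨α, rfl⟩ := hmks x
    obtain ⟨a, b, e1, -⟩ := Q263.CN.int_coord' hx bb hb0 hb1 hsq α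
    refine ⟨a, b, ?_⟩
    have e1' : algebraMap (𝓞 K) K α = ((a / 2 : ℚ) : K) + ((b / 2 : ℚ) : K) * s := e1
    have e2 : 2 * α = a + b * S := by
      apply inj
      rw [map_mul, map_add, map_mul, map_intCast, map_intCast, map_ofNat, cS, e1']
      push_cast
      ring
    have e3 := congrArg mk e2
    rw [map_mul, map_add, map_mul, map_intCast, map_intCast, map_ofNat] at e3
    exact e3
  have hn0 : n ≠ 0 := by
    rintro rfl
    rw [Nat.odd_iff] at hn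
    norm_num at hn
  have hβv : mk β = 0 := by
    rw [hmk0]
    have h3 : β ∈ v.asIdeal ^ n := by
      rw [hβ]
      exact Ideal.mem_span_singleton_self β
    exact Ideal.pow_le_self hn0 h3
  have hAB1 : (A : 𝓞 K ⧸ v.asIdeal) + B * mk S = 0 := by
    rw [← hβv, hβS, map_add, map_mul, map_intCast, map_intCast]
  have hAB : Fintype.card (𝓞 K ⧸ v.asIdeal) = l → (A : 𝓞 K ⧸ v.asIdeal) - B * mk S ≠ 0 := by
    intro hc hAB2
    have hA0 : (A : 𝓞 K ⧸ v.asIdeal) = 0 := by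
      have h3 : (2 : 𝓞 K ⧸ v.asIdeal) * A = 0 := by linear_combination hAB1 + hAB2
      exact (mul_eq_zero.1 h3).resolve_left h2F
    have hB0 : (B : 𝓞 K ⧸ v.asIdeal) = 0 := by
      rw [hA0, zero_add] at hAB1
      exact (mul_eq_zero.1 hAB1).resolve_right hsb0
    obtain ⟨a', ha'⟩ := (hint A).1 hA0
    obtain ⟨b', hb'⟩ := (hint B).1 hB0
    obtain ⟨y, hy⟩ := (surj_of_card (F := 𝓞 K ⧸ v.asIdeal) hc).2 (mk S)
    obtain ⟨σ, hσ⟩ : ∃ σ : ℤ, mk S = (σ : 𝓞 K ⧸ v.asIdeal) := by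
      obtain ⟨σ, hσ⟩ := ZMod.intCast_surjective y
      exact ⟨σ, by rw [← hy, ← hσ, map_intCast]⟩
    obtain ⟨P, Q, hP1, hP2⟩ := pow_coord hS2 σ n
    have hxv : S - σ ∈ v.asIdeal := by
      rw [← hmk0, map_sub, map_intCast, hσ, sub_self]
    have hxn : (S - σ) ^ n ∈ v.asIdeal ^ n := Ideal.pow_mem_pow hxv n
    rw [hβ, Ideal.mem_span_singleton'] at hxn
    obtain ⟨γ, hγ⟩ := hxn
    obtain ⟨δ, hδ⟩ : ∃ δ : 𝓞 K, δ = γ * (a' + b' * S) := ⟨_, rfl⟩
    have hδ2 : (l : 𝓞 K) * δ = P + Q * S := by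
      rw [← hP1, ← hγ, hβS, hδ, ha', hb']
      push_cast
      ring
    obtain ⟨u, w, e1, -⟩ := Q263.CN.int_coord' hx bb hb0 hb1 hsq δ
    have e2 : ((l : ℚ) * (u / 2) - P : ℚ) = 0 ∧ ((l : ℚ) * (w / 2) - Q : ℚ) = 0 := by
      apply coord_zero hq0 hs
      have e3 := congrArg (algebraMap (𝓞 K) K) hδ2
      have e1' : algebraMap (𝓞 K) K δ = ((u / 2 : ℚ) : K) + ((w / 2 : ℚ) : K) * s := e1
      rw [map_mul, map_add, map_mul, map_intCast, map_intCast, map_natCast, cS, e1'] at e3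
      push_cast at e3 ⊢
      linear_combination e3
    have hdvd : ∀ (X : ℤ) (z : ℤ), ((l : ℚ) * (z / 2) - X : ℚ) = 0 → (l : ℤ) ∣ X := by
      intro X z h
      have h3 : (l : ℤ) ∣ 2 * X := by
        refine ⟨z, ?_⟩
        have : (2 * X : ℚ) = l * z := by linarith
        exact_mod_cast this
      have h4 : IsCoprime (l : ℤ) ((2 : ℕ) : ℤ) :=
        Nat.isCoprime_iff_coprime.2 ((Nat.coprime_primes hlp Nat.prime_two).2 hl2)
      exact h4.dvd_of_dvd_mul_left h3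
    have hP0 : (P : 𝓞 K ⧸ v.asIdeal) = 0 := (hint P).2 (hdvd P u e2.1)
    have hQ0 : (Q : 𝓞 K ⧸ v.asIdeal) = 0 := (hint Q).2 (hdvd Q w e2.2)
    have h5 := congrArg mk hP2
    rw [map_pow, map_sub, map_neg, map_sub, map_mul, map_intCast, map_intCast, map_intCast, hP0, hQ0, zero_mul,
      sub_zero, ← hσ] at h5
    have h6 := pow_eq_zero_iff hn0 |>.1 h5
    have h7 : (2 : 𝓞 K ⧸ v.asIdeal) * mk S = 0 := by linear_combination -h6
    exact hsb0 ((mul_eq_zero.1 h7).resolve_left h2F)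
  have key := core hPF h1 h2 (F := 𝓞 K ⧸ v.asIdeal) (l := l) (n := n) hq hq8 hl2 hlq (mk S) hsb hsp A B hn
    (by rw [hcard]; exact hNv) hAB t ht ht3
  -- the sign
  have hDF : ((D : ℤ) : 𝓞 K ⧸ v.asIdeal) ≠ 0 := by
    rw [Ne, hint]
    exact_mod_cast hlD
  have hχ : quadraticChar (𝓞 K ⧸ v.asIdeal) (((D : ℤ) : 𝓞 K ⧸ v.asIdeal) * mk S) = e := by
    have h3 := quadraticChar_eq_pow_of_char_ne_two' (F := 𝓞 K ⧸ v.asIdeal) (rc (l := l) hl2)
      (((D : ℤ) : 𝓞 K ⧸ v.asIdeal) * mk S)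
    have hoddN := odd_absNorm v (by
      rw [← hmk0, map_ofNat]
      exact h2F)
    have h4 : Fintype.card (𝓞 K ⧸ v.asIdeal) / 2 = (Ideal.absNorm v.asIdeal - 1) / 2 := by
      rw [hcard]
      rw [Nat.odd_iff] at hoddN
      omega
    rw [h4] at h3
    have h5 : (((D : ℤ) : 𝓞 K ⧸ v.asIdeal) * mk S) ^ ((Ideal.absNorm v.asIdeal - 1) / 2) = (e : 𝓞 K ⧸ v.asIdeal) := by
      rw [← hmk0, map_sub, map_pow, map_mul, map_natCast, map_intCast] at heq
      rw [Int.cast_natCast]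
      exact sub_eq_zero.1 heq
    rw [h5] at h3
    rcases quadraticChar_dichotomy (mul_ne_zero hDF hsb0) with h6 | h6 <;> rcases he with h7 | h7
    · rw [h6, h7]
    · exfalso
      rw [h6, h7] at h3
      push_cast at h3
      apply h2F
      linear_combination h3
    · exfalso
      rw [h6, h7] at h3
      push_cast at h3
      apply h2F
      linear_combination -h3
    · rw [h6, h7]
  have hcor := card_or (F := 𝓞 K ⧸ v.asIdeal) (l := l) hl2 (mk S) hsp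
  have hD := qc_int (F := 𝓞 K ⧸ v.asIdeal) (l := l) hl2 hcor (D := (D : ℤ)) (by exact_mod_cast hlD)
  have hDN : jacobiSym D (A ^ 2 + q * B ^ 2).natAbs = quadraticChar (𝓞 K ⧸ v.asIdeal) ((D : ℤ) : 𝓞 K ⧸ v.asIdeal) := by
    rw [hNv, Int.natAbs_natCast, jacobiSym.pow_right, ← hcard, ← hD]
    rcases quadraticChar_dichotomy hDF with h6 | h6 <;> rw [h6]
    · rw [one_pow]
    · exact hn.neg_one_pow
  rw [map_mul] at hχ
  rw [hDN, ← hχ]
  obtain ⟨w, hw⟩ := key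
  obtain ⟨X, hX⟩ : ∃ X : ℤ, X = quadraticChar (𝓞 K ⧸ v.asIdeal) ((D : ℤ) : 𝓞 K ⧸ v.asIdeal) := ⟨_, rfl⟩
  rw [← hX]
  refine ⟨(X : ℤ_[2]) * w, ?_⟩
  push_cast
  linear_combination (X : ℤ_[2]) * hw

end Pool.Agent.Q26.BKC
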