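import Pool.Agent.Q26.BKC.E2

/-! # Project BKC, job QR: local parts -/

set_option autoImplicit false

namespace Pool.Agent.Q26.BKC

open Pool.Agent.Y676.HS
open Pool.Agent.Q274.BKC
open scoped Classical

/-- the symbol of a unit and `-1` at `2` -/
theorem hs_neg_one {u : ℚ_[2]} (hu : ‖u‖ = 1) : ‖u - ((hs u (-1) : ℤ) : ℚ_[2])‖ ≤ 1 / 4 := by
  obtain ⟨m, hm, h1⟩ := unit_approx hu
  obtain ⟨c, hc, e1⟩ := unit_class hm h1
  have h2 : hs u (-1) = if m % 4 = 1 then 1 else -1 := by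
    rw [e1, hs_mul_sq hc]
    have key := (Pool.Agent.W108.BMX.two4 m hm).1
    unfold hs
    by_cases h : m % 4 = 1
    · rw [if_pos h, if_pos (key.2 h)]
    · rw [if_neg h, if_neg fun h3 => h (key.1 h3)]
  rw [h2]
  by_cases h : m % 4 = 1
  · rw [if_pos h]
    have e : u - ((1 : ℤ) : ℚ_[2]) = (u - m) + ((m - 1 : ℤ) : ℚ_[2]) := by push_cast; ring
    rw [e]
    exact (Padic.nonarchimedean _ _).trans (max_le (by linarith) (norm_le4.2 (by omega)))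
  · rw [if_neg h]
    have e : u - ((-1 : ℤ) : ℚ_[2]) = (u - m) + ((m + 1 : ℤ) : ℚ_[2]) := by push_cast; ring
    rw [e]
    exact (Padic.nonarchimedean _ _).trans (max_le (by linarith) (norm_le4.2 (by omega)))

section

variable {q : ℕ} {A B : ℤ}

theorem int_norm_le {p : ℕ} [hp : Fact p.Prime] {t : ℚ_[p]} (ht : ‖t‖ = 1) :
    ‖(A : ℚ_[p]) + B * t‖ ≤ 1 ∧ ‖(A : ℚ_[p]) - B * t‖ ≤ 1 := by
  have h1 : ‖(B : ℚ_[p]) * t‖ ≤ 1 := by
    rw [norm_mul, ht, mul_one]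
    exact Padic.norm_int_le_one B
  constructor
  · exact (Padic.nonarchimedean _ _).trans (max_le (Padic.norm_int_le_one A) h1)
  · rw [sub_eq_add_neg]
    refine (Padic.nonarchimedean _ _).trans (max_le (Padic.norm_int_le_one A) ?_)
    rw [norm_neg]
    exact h1

/-- units outside the norm -/
theorem int_units {p : ℕ} [hp : Fact p.Prime] {t : ℚ_[p]} (ht : t ^ 2 = -(q : ℚ_[p])) (ht1 : ‖t‖ = 1)
    (hN : ¬ (p : ℤ) ∣ A ^ 2 + q * B ^ 2) : ‖(A : ℚ_[p]) + B * t‖ = 1 ∧ ‖(A : ℚ_[p]) - B * t‖ = 1 := by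
  obtain ⟨h1, h2⟩ := int_norm_le (A := A) (B := B) ht1
  have h3 : ‖(A : ℚ_[p]) + B * t‖ * ‖(A : ℚ_[p]) - B * t‖ = 1 := by
    rw [← norm_mul]
    have e : ((A : ℚ_[p]) + B * t) * ((A : ℚ_[p]) - B * t) = ((A ^ 2 + q * B ^ 2 : ℤ) : ℚ_[p]) := by
      push_cast
      linear_combination (-(B : ℚ_[p]) ^ 2) * ht
    rw [e]
    exact norm_nd hN
  have h4 := norm_nonneg ((A : ℚ_[p]) + B * t)
  have h5 := norm_nonneg ((A : ℚ_[p]) - B * t)
  constructor <;> nlinarith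

theorem ne_of_norm {p : ℕ} [hp : Fact p.Prime] {u : ℚ_[p]} (h : ‖u‖ = 1) : u ≠ 0 := by
  rintro rfl
  rw [norm_zero] at h
  norm_num at h

/-- outside -/
theorem int_out (h1 : S_H1) (h2 : S_H2) (hq : 0 < q) (hA : A ≠ 0) (hB : B ≠ 0) (p : ℕ) [hp : Fact p.Prime]
    (hp2 : p ≠ 2) (hpq : ¬ p ∣ q) (hN : ¬ (p : ℤ) ∣ A ^ 2 + q * B ^ 2) : hh q (A : ℚ) (B : ℚ) p = 1 := by
  have hA' : (A : ℚ) ≠ 0 := by exact_mod_cast hA
  have hB' : (B : ℚ) ≠ 0 := by exact_mod_cast hB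
  by_cases hs : ∃ t : ℚ_[p], t ^ 2 = -(q : ℚ_[p])
  · obtain ⟨t, ht⟩ := hs
    have ht1 := norm_root hpq ht
    obtain ⟨h3, h4⟩ := int_units ht ht1 hN
    have ht1' : ‖-t‖ = 1 := by rw [norm_neg]; exact ht1
    rw [h1 p q A B t hq ht hA' hB', Rat.cast_intCast, Rat.cast_intCast,
      hs_units hp2 (ne_of_norm h3) (ne_of_norm ht1) (by rw [val0 h3]; exact Even.zero)
        (by rw [val0 ht1]; exact Even.zero),
      hs_units hp2 (ne_of_norm h4) (ne_of_norm ht1') (by rw [val0 h4]; exact Even.zero)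
        (by rw [val0 ht1']; exact Even.zero), one_mul]
  · push Not at hs
    rw [h2 p q A B hq hp2 hpq hs hA' hB', if_pos]
    right
    rw [padicValRat.of_int, padicValRat.of_int]
    by_cases h3 : (p : ℤ) ∣ A
    · have h4 : ¬ (p : ℤ) ∣ B := by
        intro h5
        exact hN (dvd_add (dvd_pow h3 two_ne_zero) (Dvd.dvd.mul_left (dvd_pow h5 two_ne_zero) _))
      rw [padicValInt.eq_zero_of_not_dvd h4, min_eq_right (by positivity)]
      exact Even.zero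
    · rw [padicValInt.eq_zero_of_not_dvd h3, min_eq_left (by positivity)]
      exact Even.zero

/-- at `q` -/
theorem int_q [hf : Fact q.Prime] (hq2 : q ≠ 2) (hA : ¬ (q : ℤ) ∣ A) :
    hh q (A : ℚ) (B : ℚ) q = jacobiSym A q := by
  have h1 : IsSquare ((((A : ℚ) ^ 2 + q * (B : ℚ) ^ 2 : ℚ)) : ℚ_[q]) := by
    have e : ((((A : ℚ) ^ 2 + q * (B : ℚ) ^ 2 : ℚ)) : ℚ_[q]) = ((A ^ 2 + q * B ^ 2 : ℤ) : ℚ_[q]) := by
      push_cast
      rfl
    rw [e, sq_iff_zmod hq2]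
    · refine ⟨(A : ZMod q), ?_⟩
      push_cast
      rw [ZMod.natCast_self]
      ring
    · intro h
      have h2 : (q : ℤ) ∣ A ^ 2 := by
        have h3 : A ^ 2 = (A ^ 2 + q * B ^ 2) - q * B ^ 2 := by ring
        rw [h3]
        exact dvd_sub h (Dvd.intro _ rfl)
      exact hA (Int.Prime.dvd_pow' hf.out h2)
  unfold hh
  rw [hs_of_sq h1, one_mul]
  have hA0 : ((A : ℚ) : ℚ_[q]) ≠ 0 := by
    rw [Rat.cast_intCast]
    exact int_ne_of_nd hA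
  have hq0 : ((q : ℚ) : ℚ_[q]) ≠ 0 := by
    have : (q : ℚ) ≠ 0 := by exact_mod_cast hf.out.ne_zero
    exact_mod_cast this
  have hvA : Even ((A : ℚ) : ℚ_[q]).valuation := by
    rw [Rat.cast_intCast, val0 (norm_nd hA)]
    exact Even.zero
  rw [hs_comm, hs_unit_val hq2 hq0 hA0 hvA]
  have hvq : ((q : ℚ) : ℚ_[q]).valuation = 1 := by
    have e : ((q : ℚ) : ℚ_[q]) = (q : ℚ_[q]) := by push_cast; rfl
    rw [e, Padic.valuation_p]
  have h5 : ((A : ℤ) : ZMod q) ≠ 0 := fun h0 => hA ((ZMod.intCast_zmod_eq_zero_iff_dvd A q).1 h0)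
  rw [hvq, Rat.cast_intCast, sq_iff_leg hq2 hA, ← jacobiSym.legendreSym.to_jacobiSym]
  rcases legendreSym.eq_one_or_neg_one q h5 with h6 | h6
  · rw [if_pos (Or.inl h6), h6]
  · rw [if_neg, h6]
    rintro (h7 | h7)
    · rw [h6] at h7
      norm_num at h7
    · rw [Int.even_iff] at h7
      norm_num at h7

/-- at `2` -/
theorem int_two (h1 : S_H1) (hq : 0 < q) (hq2 : ¬ 2 ∣ q) (hA : A ≠ 0) (hB : B ≠ 0) {t : ℚ_[2]}
    (ht : t ^ 2 = -(q : ℚ_[2])) (ht3 : ‖t - 3‖ ≤ 1 / 4) (hN : ¬ (2 : ℤ) ∣ A ^ 2 + q * B ^ 2) :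
    ∃ δ : ℤ, (δ = 1 ∨ δ = -1) ∧ hh q (A : ℚ) (B : ℚ) 2 = δ ∧ ‖(A : ℚ_[2]) + B * t - (δ : ℚ_[2])‖ ≤ 1 / 4 := by
  have hA' : (A : ℚ) ≠ 0 := by exact_mod_cast hA
  have hB' : (B : ℚ) ≠ 0 := by exact_mod_cast hB
  have ht1 : ‖t‖ = 1 := norm_root hq2 ht
  have ht1' : ‖-t‖ = 1 := by rw [norm_neg]; exact ht1
  obtain ⟨h3, h4⟩ := int_units (p := 2) ht ht1 (by exact_mod_cast hN)
  have h5 : ‖-t - 1‖ ≤ 1 / 4 := by
    have e : -t - 1 = -((t - 3) + ((4 : ℤ) : ℚ_[2])) := by push_cast; ring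
    rw [e, norm_neg]
    exact (Padic.nonarchimedean _ _).trans (max_le ht3 (norm_le4.2 (by norm_num)))
  refine ⟨hs ((A : ℚ_[2]) + B * t) (-1), ?_, ?_, hs_neg_one h3⟩
  · unfold hs
    split_ifs
    · exact Or.inl rfl
    · exact Or.inr rfl
  · rw [h1 2 q A B t hq ht hA' hB', Rat.cast_intCast, Rat.cast_intCast, hs_two h4 h5, mul_one]
    have e : t = (-1) * (-t) := by ring
    conv_lhs => rw [e]
    rw [hs_mul (bl_padic 2) (ne_of_norm (by rw [← e]; exact h3)) (by norm_num)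
      (neg_ne_zero.2 (ne_of_norm ht1)), ← e, hs_two h3 h5, mul_one]

/-- at the prime `l` of the norm -/
theorem int_l (h1 : S_H1) (hq : 0 < q) (hA : A ≠ 0) (hB : B ≠ 0) {l n : ℕ} [hl : Fact l.Prime] (hl2 : l ≠ 2)
    (hlq : ¬ l ∣ q) (hn : Odd n) (hN : A ^ 2 + q * B ^ 2 = ((l ^ n : ℕ) : ℤ)) {v : ℤ_[l]}
    (hv : v ^ 2 = ((-(q : ℤ) : ℤ) : ℤ_[l])) (hM : (A : ZMod l) - B * PadicInt.toZMod v ≠ 0) :
    hh q (A : ℚ) (B : ℚ) l = if IsSquare (PadicInt.toZMod v) then 1 else -1 := by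
  have hA' : (A : ℚ) ≠ 0 := by exact_mod_cast hA
  have hB' : (B : ℚ) ≠ 0 := by exact_mod_cast hB
  have ht : (v : ℚ_[l]) ^ 2 = -(q : ℚ_[l]) := by
    rw [← PadicInt.coe_pow, hv]
    push_cast
    rfl
  have ht1 := norm_root hlq ht
  have ht1' : ‖-(v : ℚ_[l])‖ = 1 := by rw [norm_neg]; exact ht1
  have hz0 : PadicInt.toZMod v ≠ 0 := by
    intro h0
    have hz : (PadicInt.toZMod v) ^ 2 = -(q : ZMod l) := by
      rw [← map_pow, hv, map_intCast]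
      push_cast
      rfl
    rw [h0] at hz
    have h5 : (q : ZMod l) = 0 := by
      linear_combination hz
    exact hlq ((ZMod.natCast_eq_zero_iff q l).1 h5)
  have hMn : ‖(A : ℚ_[l]) - B * (v : ℚ_[l])‖ = 1 := by
    have e : (A : ℚ_[l]) - B * (v : ℚ_[l]) = ((((A : ℤ) : ℤ_[l]) - ((B : ℤ) : ℤ_[l]) * v : ℤ_[l]) : ℚ_[l]) := by
      push_cast
      rfl
    rw [e, ← PadicInt.norm_def]
    by_contra hne
    have hlt : ‖((A : ℤ) : ℤ_[l]) - ((B : ℤ) : ℤ_[l]) * v‖ < 1 := lt_of_le_of_ne (PadicInt.norm_le_one _) hne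
    have hm := PadicInt.mem_nonunits.2 hlt
    rw [← IsLocalRing.mem_maximalIdeal, ← PadicInt.ker_toZMod, RingHom.mem_ker, map_sub, map_mul, map_intCast,
      map_intCast] at hm
    exact hM hm
  have hM0 := ne_of_norm hMn
  have e1 : ((A : ℚ_[l]) + B * (v : ℚ_[l])) * ((A : ℚ_[l]) - B * (v : ℚ_[l])) = (l : ℚ_[l]) ^ n := by
    have e2 : ((A ^ 2 + q * B ^ 2 : ℤ) : ℚ_[l]) = (l : ℚ_[l]) ^ n := by
      rw [hN]
      push_cast
      rfl
    rw [← e2]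
    push_cast
    linear_combination (-(B : ℚ_[l]) ^ 2) * ht
  have hl0 : (l : ℚ_[l]) ≠ 0 := Nat.cast_ne_zero.2 hl.out.ne_zero
  have hP0 : (A : ℚ_[l]) + B * (v : ℚ_[l]) ≠ 0 := by
    intro h0
    rw [h0, zero_mul] at e1
    exact pow_ne_zero n hl0 e1.symm
  have hval : ((A : ℚ_[l]) + B * (v : ℚ_[l])).valuation = n := by
    have e2 := congrArg Padic.valuation e1
    rw [Padic.valuation_mul hP0 hM0, val0 hMn, Padic.valuation_pow, Padic.valuation_p] at e2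
    linarith
  rw [h1 l q A B v hq ht hA' hB', Rat.cast_intCast, Rat.cast_intCast,
    hs_units hl2 hM0 (ne_of_norm ht1') (by rw [val0 hMn]; exact Even.zero) (by rw [val0 ht1']; exact Even.zero),
    mul_one, hs_unit_val hl2 hP0 (ne_of_norm ht1) (by rw [val0 ht1]; exact Even.zero), hval]
  have hodd : ¬ Even (n : ℤ) := by
    intro h
    rw [Int.even_iff] at h
    rw [Nat.odd_iff] at hn
    omega
  have hiff : IsSquare (v : ℚ_[l]) ↔ IsSquare (PadicInt.toZMod v) := by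
    constructor
    · rintro ⟨z, hz'⟩
      have hz1 : ‖z‖ ≤ 1 := by
        by_contra hcon
        push Not at hcon
        rw [hz', norm_mul] at ht1
        nlinarith
      obtain ⟨w, hw⟩ : ∃ w : ℤ_[l], (w : ℚ_[l]) = z := ⟨⟨z, hz1⟩, rfl⟩
      have hvw : v = w * w := by
        apply Subtype.ext
        rw [PadicInt.coe_mul, hw, hz']
      exact ⟨PadicInt.toZMod w, by rw [hvw, map_mul]⟩
    · rintro ⟨y, hy⟩
      refine Pool.Agent.W335.BMX.isSquare_coe (Pool.Agent.W335.BMX.sq_of_residue hl2 v y ?_ (by rw [hy]; ring))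
      rintro rfl
      rw [mul_zero] at hy
      exact hz0 hy
  simp only [hiff, hodd, or_false]

end

end Pool.Agent.Q26.BKC
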