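import Pool.Agent.Q26.BKC.QRa

/-! # Project BKC, job QR: the residue field -/

set_option autoImplicit false

namespace Pool.Agent.Q26.BKC

open Pool.Agent.Y676.HS
open Pool.Agent.Q274.BKC
open scoped Classical

section

variable {F : Type} [Field F] [Fintype F] {l : ℕ} [hl : Fact l.Prime] [CharP F l]

/-- the inclusion of the prime field -/
noncomputable abbrev io (F : Type) [Field F] (l : ℕ) [CharP F l] : ZMod l →+* F := ZMod.castHom (dvd_refl l) F

theorem io_int (a : ℤ) : io F l (a : ZMod l) = (a : F) := map_intCast _ a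

theorem io_inj : Function.Injective (io F l) := (io F l).injective

theorem two_ne (hl2 : l ≠ 2) : (2 : F) ≠ 0 := by
  intro h
  have h1 : ((2 : ℕ) : F) = 0 := by exact_mod_cast h
  rw [CharP.cast_eq_zero_iff F l] at h1
  exact hl2 ((Nat.prime_dvd_prime_iff_eq hl.out Nat.prime_two).1 h1)

/-- the residue field has at most `l ^ 2` elements -/
theorem card_or (hl2 : l ≠ 2) (sb : F) (hsp : ∀ x : F, ∃ a b : ℤ, 2 * x = a + b * sb) :
    Fintype.card F = l ∨ Fintype.card F = l ^ 2 := by
  obtain ⟨f, -, hf⟩ := FiniteField.card F l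
  have h2 := two_ne (F := F) hl2
  have hsurj : Function.Surjective fun z : ZMod l × ZMod l => io F l z.1 + io F l z.2 * sb := by
    intro x
    obtain ⟨a, b, h⟩ := hsp (x / 2)
    refine ⟨((a : ZMod l), (b : ZMod l)), ?_⟩
    simp only [io_int]
    rw [← h]
    field_simp
  have h3 := Fintype.card_le_of_surjective _ hsurj
  rw [Fintype.card_prod, ZMod.card, hf, ← sq] at h3
  have h4 : (f : ℕ) ≤ 2 := (Nat.pow_le_pow_iff_right hl.out.one_lt).1 h3
  have h5 := f.pos
  rw [hf]
  interval_cases h : (f : ℕ)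
  · left; rw [pow_one]
  · right; rfl

/-- if the root is in the prime field then the residue field is the prime field -/
theorem card_of_root (hl2 : l ≠ 2) (sb : F) (hsp : ∀ x : F, ∃ a b : ℤ, 2 * x = a + b * sb) {y : ZMod l}
    (hy : io F l y = sb) : Fintype.card F = l := by
  have h2 := two_ne (F := F) hl2
  have hsurj : Function.Surjective (io F l) := by
    intro x
    obtain ⟨a, b, h⟩ := hsp (x / 2)
    refine ⟨a + b * y, ?_⟩
    rw [map_add, map_mul, io_int, io_int, hy, ← h]
    field_simp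
  have h3 := Fintype.card_le_of_surjective _ hsurj
  have h4 := Fintype.card_le_of_injective _ (io_inj (F := F) (l := l))
  rw [ZMod.card] at h3 h4
  omega

theorem surj_of_card (h : Fintype.card F = l) : Function.Bijective (io F l) := by
  rw [Fintype.bijective_iff_injective_and_card]
  exact ⟨io_inj, by rw [ZMod.card, h]⟩

theorem sq_io (h : Fintype.card F = l) (y : ZMod l) : IsSquare (io F l y) ↔ IsSquare y := by
  constructor
  · rintro ⟨z, hz⟩
    obtain ⟨w, rfl⟩ := (surj_of_card h).2 z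
    exact ⟨w, io_inj (by rw [hz, map_mul])⟩
  · rintro ⟨w, rfl⟩
    exact ⟨io F l w, map_mul _ _ _⟩

theorem rc (hl2 : l ≠ 2) : ringChar F ≠ 2 := by
  rw [ringChar.eq F l]
  exact hl2

/-- the quadratic character of a rational integer -/
theorem qc_int (hl2 : l ≠ 2) (hcard : Fintype.card F = l ∨ Fintype.card F = l ^ 2) {D : ℤ}
    (hD : ¬ (l : ℤ) ∣ D) : quadraticChar F (D : F) = jacobiSym D (Fintype.card F) := by
  have hD0 : (D : ZMod l) ≠ 0 := fun h0 => hD ((ZMod.intCast_zmod_eq_zero_iff_dvd D l).1 h0)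
  have hDF : (D : F) ≠ 0 := by
    rw [← io_int (F := F) (l := l)]
    exact fun h => hD0 (io_inj (by rw [h, map_zero]))
  rcases hcard with h | h
  · rw [h, ← jacobiSym.legendreSym.to_jacobiSym]
    rcases legendreSym.eq_one_or_neg_one l hD0 with h6 | h6
    · rw [h6, quadraticChar_one_iff_isSquare hDF, ← io_int (F := F) (l := l), sq_io h]
      exact (legendreSym.eq_one_iff l hD0).1 h6
    · rw [h6, quadraticChar_neg_one_iff_not_isSquare, ← io_int (F := F) (l := l), sq_io h]
      exact (legendreSym.eq_neg_one_iff l).1 h6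
  · have h1 : jacobiSym D (Fintype.card F) = 1 := by
      rw [h, jacobiSym.pow_right, ← jacobiSym.legendreSym.to_jacobiSym]
      rcases legendreSym.eq_one_or_neg_one l hD0 with h6 | h6 <;> rw [h6] <;> norm_num
    rw [h1, quadraticChar_eq_pow_of_char_ne_two (rc hl2) hDF, if_pos]
    have h3 : l % 2 = 1 := by
      rcases hl.out.eq_two_or_odd with h4 | h4
      · exact absurd h4 hl2
      · exact h4
    obtain ⟨k, hk⟩ : ∃ k, l = 2 * k + 1 := ⟨l / 2, by omega⟩
    have h5 : Fintype.card F / 2 = (l - 1) * (k + 1) := by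
      rw [h, hk]
      have : (2 * k + 1) ^ 2 = 2 * (2 * k * (k + 1)) + 1 := by ring
      rw [this]
      have e : 2 * k + 1 - 1 = 2 * k := by omega
      rw [e]
      omega
    rw [h5, pow_mul, ← io_int (F := F) (l := l), ← map_pow, ZMod.pow_card_sub_one_eq_one hD0, map_one, one_pow]

/-- the inert case -/
theorem qc_inert (hl2 : l ≠ 2) (hcard : Fintype.card F = l ^ 2) {q : ℕ} (sb : F) (hsb : sb ^ 2 = -(q : F))
    (hns : ¬ IsSquare (-(q : ZMod l))) (hql : ¬ l ∣ q) : quadraticChar F sb = (-1) ^ ((l + 1) / 2) := by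
  have h3 : l % 2 = 1 := by
    rcases hl.out.eq_two_or_odd with h4 | h4
    · exact absurd h4 hl2
    · exact h4
  have hnd : ¬ (l : ℤ) ∣ -(q : ℤ) := by
    rw [dvd_neg]
    exact_mod_cast hql
  have hq0 : ((-(q : ℤ) : ℤ) : ZMod l) ≠ 0 := fun h0 => hnd ((ZMod.intCast_zmod_eq_zero_iff_dvd _ l).1 h0)
  have hsb0 : sb ≠ 0 := by
    rintro rfl
    have h5 : ((-(q : ℤ) : ℤ) : F) = 0 := by
      push_cast
      rw [← hsb]
      ring
    rw [← io_int (F := F) (l := l)] at h5
    exact hq0 (io_inj (by rw [h5, map_zero]))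
  have hleg : legendreSym l (-(q : ℤ)) = -1 := by
    rw [legendreSym.eq_neg_one_iff l]
    push_cast
    exact hns
  have h6 : sb ^ (l - 1) = -1 := by
    have e : l - 1 = 2 * (l / 2) := by omega
    rw [e, pow_mul, hsb]
    have h7 := legendreSym.eq_pow l (-(q : ℤ))
    rw [hleg] at h7
    have h8 := congrArg (io F l) h7
    rw [map_pow, map_intCast, map_intCast] at h8
    push_cast at h8
    exact h8.symm
  have hone : (1 : F) ≠ -1 := by
    intro h
    apply two_ne (F := F) hl2
    linear_combination h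
  rw [quadraticChar_eq_pow_of_char_ne_two (rc hl2) hsb0]
  obtain ⟨k, hk⟩ : ∃ k, l = 2 * k + 1 := ⟨l / 2, by omega⟩
  have h5 : Fintype.card F / 2 = (l - 1) * (k + 1) := by
    rw [hcard, hk]
    have : (2 * k + 1) ^ 2 = 2 * (2 * k * (k + 1)) + 1 := by ring
    rw [this]
    have e : 2 * k + 1 - 1 = 2 * k := by omega
    rw [e]
    omega
  have h9 : (l + 1) / 2 = k + 1 := by omega
  rw [h5, pow_mul, h6, h9]
  rcases Nat.even_or_odd (k + 1) with h10 | h10
  · rw [h10.neg_one_pow, h10.neg_one_pow, if_pos rfl]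
  · rw [h10.neg_one_pow, h10.neg_one_pow, if_neg hone.symm]

end

/-- descent -/
theorem descent {l q : ℕ} (hl : l.Prime) (hq : 1 < q) (hql : ¬ l ∣ q) (hns : ¬ IsSquare (-(q : ZMod l))) :
    ∀ (m : ℕ) (A B : ℤ), A ^ 2 + q * B ^ 2 = ((l ^ m : ℕ) : ℤ) → B = 0 := by
  haveI := Fact.mk hl
  intro m
  induction m using Nat.strong_induction_on with
  | _ m ih =>
    intro A B h
    rcases Nat.eq_zero_or_pos m with h0 | h0
    · subst h0
      rw [pow_zero, Nat.cast_one] at h
      by_contra hB
      have h1 : 1 ≤ B ^ 2 := by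
        have : 0 < B ^ 2 := by positivity
        omega
      have h2 : (2 : ℤ) ≤ q := by exact_mod_cast hq
      nlinarith [sq_nonneg A]
    · have hd : (l : ℤ) ∣ A ^ 2 + q * B ^ 2 := by
        rw [h]
        exact_mod_cast dvd_pow_self l h0.ne'
      have hz : (A : ZMod l) ^ 2 + q * (B : ZMod l) ^ 2 = 0 := by
        have := (ZMod.intCast_zmod_eq_zero_iff_dvd (A ^ 2 + q * B ^ 2) l).2 hd
        push_cast at this
        exact this
      have hB : (B : ZMod l) = 0 := by
        by_contra hB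
        apply hns
        refine ⟨(A : ZMod l) / B, ?_⟩
        field_simp
        linear_combination -hz
      have hA : (A : ZMod l) = 0 := by
        rw [hB] at hz
        have : (A : ZMod l) ^ 2 = 0 := by linear_combination hz
        exact pow_eq_zero_iff two_ne_zero |>.1 this
      obtain ⟨A', rfl⟩ := (ZMod.intCast_zmod_eq_zero_iff_dvd A l).1 hA
      obtain ⟨B', rfl⟩ := (ZMod.intCast_zmod_eq_zero_iff_dvd B l).1 hB
      have hl0 : (l : ℤ) ≠ 0 := by exact_mod_cast hl.ne_zero
      have hm2 : 2 ≤ m := by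
        by_contra hm
        have hm1 : m = 1 := by omega
        subst hm1
        rw [pow_one] at h
        have h5 : (l : ℤ) * (l * (A' ^ 2 + q * B' ^ 2)) = l * 1 := by
          rw [mul_one]
          linear_combination h
        have h6 := mul_left_cancel₀ hl0 h5
        have h7 := Int.eq_one_of_mul_eq_one_right (by positivity) h6
        have : l = 1 := by exact_mod_cast h7
        exact hl.one_lt.ne' this
      obtain ⟨m', rfl⟩ : ∃ m', m = m' + 2 := ⟨m - 2, by omega⟩
      have h5 : (l : ℤ) ^ 2 * (A' ^ 2 + q * B' ^ 2) = l ^ 2 * ((l ^ m' : ℕ) : ℤ) := by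
        push_cast at h ⊢
        linear_combination h
      have h6 := mul_left_cancel₀ (pow_ne_zero 2 hl0) h5
      rw [ih m' (by omega) A' B' h6, mul_zero]

theorem four_dvd {x : ℤ_[2]} (h : ‖x‖ ≤ 1 / 4) : (4 : ℤ_[2]) ∣ x := by
  have h1 := (PadicInt.norm_le_pow_iff_mem_span_pow x 2).1 (by
    refine h.trans (le_of_eq ?_)
    norm_num)
  rw [Ideal.mem_span_singleton] at h1
  have e : ((2 : ℕ) : ℤ_[2]) ^ 2 = 4 := by norm_num
  rwa [e] at h1

theorem norm_of_four {x : ℤ_[2]} (h : (4 : ℤ_[2]) ∣ x) : ‖x‖ ≤ 1 / 4 := by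
  have h1 := (PadicInt.norm_le_pow_iff_mem_span_pow x 2).2 (by
    rw [Ideal.mem_span_singleton]
    have e : ((2 : ℕ) : ℤ_[2]) ^ 2 = 4 := by norm_num
    rwa [e])
  refine h1.trans (le_of_eq ?_)
  norm_num

/-- the core -/
theorem core (hPF : S_PF) (h1 : S_H1) (h2 : S_H2) {F : Type} [Field F] [Fintype F] {q l n : ℕ}
    [hl : Fact l.Prime] [CharP F l] (hq : q.Prime) (hq8 : q % 8 = 7) (hl2 : l ≠ 2) (hlq : l ≠ q) (sb : F)
    (hsb : sb ^ 2 = -(q : F)) (hsp : ∀ x : F, ∃ a b : ℤ, 2 * x = a + b * sb) (A B : ℤ) (hn : Odd n)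
    (hN : A ^ 2 + q * B ^ 2 = ((Fintype.card F ^ n : ℕ) : ℤ))
    (hAB : Fintype.card F = l → (A : F) - B * sb ≠ 0) (t : ℤ_[2])
    (ht : t ^ 2 = -(q : ℤ_[2])) (ht3 : (4 : ℤ_[2]) ∣ t - 3) :
    (4 : ℤ_[2]) ∣ ((quadraticChar F sb : ℤ) : ℤ_[2]) - ((jacobiSym A q : ℤ) : ℤ_[2]) * ((A : ℤ_[2]) + B * t) := by
  haveI : Fact q.Prime := ⟨hq⟩
  have hq2 : q ≠ 2 := by rintro rfl; omega
  have hlq' : ¬ l ∣ q := fun h => hlq ((Nat.prime_dvd_prime_iff_eq hl.out hq).1 h)
  have hql' : ¬ q ∣ l := fun h => hlq ((Nat.prime_dvd_prime_iff_eq hq hl.out).1 h).symm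
  have hcard := card_or (F := F) hl2 sb hsp
  have hodd : l % 2 = 1 := by
    rcases hl.out.eq_two_or_odd with h4 | h4
    · exact absurd h4 hl2
    · exact h4
  have hA : ¬ (q : ℤ) ∣ A := by
    intro h
    have h3 : (q : ℤ) ∣ ((Fintype.card F ^ n : ℕ) : ℤ) := by
      rw [← hN]
      exact dvd_add (dvd_pow h two_ne_zero) (Dvd.intro _ rfl)
    have h4 : q ∣ Fintype.card F ^ n := by exact_mod_cast h3
    have h5 := hq.dvd_of_dvd_pow h4
    rcases hcard with h6 | h6
    · rw [h6] at h5
      exact hql' h5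
    · rw [h6] at h5
      exact hql' (hq.dvd_of_dvd_pow h5)
  have hA0 : A ≠ 0 := by
    rintro rfl
    exact hA (dvd_zero _)
  rcases hcard with hc | hc
  · -- split
    obtain ⟨y, hy⟩ := (surj_of_card (F := F) hc).2 sb
    have hy2 : y ^ 2 = -(q : ZMod l) := by
      apply io_inj (F := F)
      rw [map_pow, hy, hsb, map_neg, map_natCast]
    have hy0 : y ≠ 0 := by
      rintro rfl
      have h5 : (q : ZMod l) = 0 := by
        linear_combination hy2
      exact hlq' ((ZMod.natCast_eq_zero_iff q l).1 h5)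
    obtain ⟨v, hv, hvy⟩ : ∃ v : ℤ_[l], v ^ 2 = ((-(q : ℤ) : ℤ) : ℤ_[l]) ∧ PadicInt.toZMod v = y := by
      obtain ⟨r, hr⟩ := Pool.Agent.W335.BMX.sq_of_residue hl2 ((-(q : ℤ) : ℤ) : ℤ_[l]) y hy0 (by
        rw [map_intCast, hy2]
        push_cast
        rfl)
      have hz : (PadicInt.toZMod r) * (PadicInt.toZMod r) = y ^ 2 := by
        rw [← map_mul, ← hr, map_intCast, hy2]
        push_cast
        rfl
      have h6 : (PadicInt.toZMod r - y) * (PadicInt.toZMod r + y) = 0 := by
        linear_combination hz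
      rcases mul_eq_zero.1 h6 with h7 | h7
      · exact ⟨r, by rw [hr]; ring, sub_eq_zero.1 h7⟩
      · exact ⟨-r, by rw [hr]; ring, by rw [map_neg]; linear_combination -h7⟩
    have hB0 : B ≠ 0 := by
      rintro rfl
      have h3 : IsSquare ((l ^ n : ℕ) : ℤ) := ⟨A, by rw [← hc, ← hN]; ring⟩
      have h4 : IsSquare (l ^ n) := by
        rw [Int.isSquare_natCast_iff] at h3
        exact h3
      obtain ⟨w, hw⟩ := h4
      have h5 : (l ^ n).factorization l = (w * w).factorization l := by rw [hw]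
      have hw0 : w ≠ 0 := by
        rintro rfl
        rw [mul_zero] at hw
        exact pow_ne_zero n hl.out.ne_zero hw
      rw [Nat.factorization_mul hw0 hw0, Nat.Prime.factorization_pow hl.out] at h5
      simp only [Finsupp.single_eq_same, Finsupp.coe_add, Pi.add_apply] at h5
      rw [Nat.odd_iff] at hn
      omega
    have hM : (A : ZMod l) - B * PadicInt.toZMod v ≠ 0 := by
      rw [hvy]
      intro h0
      apply hAB hc
      have := congrArg (io F l) h0
      rw [map_sub, map_mul, map_intCast, map_intCast, hy, map_zero] at this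
      exact this
    rw [hc] at hN
    have hNp : ∀ p : ℕ, p.Prime → p ≠ l → ¬ (p : ℤ) ∣ A ^ 2 + q * B ^ 2 := by
      intro p hp hpl h
      rw [hN] at h
      have h4 : p ∣ l ^ n := by exact_mod_cast h
      exact hpl ((Nat.prime_dvd_prime_iff_eq hp hl.out).1 (hp.dvd_of_dvd_pow h4))
    have hhn : ∀ (p : ℕ) (hp : p.Prime), Pool.Agent.Q274.BKC.hn q A B p = @hh q A B p ⟨hp⟩ := fun p hp => dif_pos hp
    have key := hPF q A B hq.pos (by exact_mod_cast hA0) (by exact_mod_cast hB0) {2, q, l} (fun p hp hpW => by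
      rw [hhn p hp]
      haveI := Fact.mk hp
      simp only [Finset.mem_insert, Finset.mem_singleton, not_or] at hpW
      exact int_out h1 h2 hq.pos hA0 hB0 p hpW.1
        (fun h => hpW.2.1 ((Nat.prime_dvd_prime_iff_eq hp hq).1 h)) (hNp p hp hpW.2.2))
    have hn1 : (2 : ℕ) ∉ ({q, l} : Finset ℕ) := by
      simp only [Finset.mem_insert, Finset.mem_singleton, not_or]
      exact ⟨hq2.symm, hl2.symm⟩
    have hn2 : q ∉ ({l} : Finset ℕ) := by
      rw [Finset.mem_singleton]
      exact hlq.symm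
    rw [Finset.prod_insert hn1, Finset.prod_insert hn2, Finset.prod_singleton, hhn 2 Nat.prime_two, hhn q hq,
      hhn l hl.out] at key
    have ht' : (t : ℚ_[2]) ^ 2 = -(q : ℚ_[2]) := by
      rw [← PadicInt.coe_pow, ht]
      push_cast
      rfl
    have ht3' : ‖(t : ℚ_[2]) - 3‖ ≤ 1 / 4 := by
      have := norm_of_four ht3
      rw [PadicInt.norm_def] at this
      exact this
    obtain ⟨δ, hδ, k1, k2⟩ := int_two (q := q) h1 hq.pos (by omega) hA0 hB0 ht' ht3'
      (by have := hNp 2 Nat.prime_two (Ne.symm hl2); exact_mod_cast this)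
    have k3 := int_q (q := q) (A := A) (B := B) hq2 hA
    have k4 := int_l h1 hq.pos hA0 hB0 hl2 hlq' hn hN hv hM
    have k1' : @hh q A B 2 ⟨Nat.prime_two⟩ = δ := k1
    have k3' : @hh q A B q ⟨hq⟩ = jacobiSym A q := k3
    have k4' : @hh q A B l ⟨hl.out⟩ = if IsSquare (PadicInt.toZMod v) then 1 else -1 := k4
    rw [k1', k3', k4', hvy] at key
    have hsb0 : sb ≠ 0 := by
      rw [← hy]
      exact fun h => hy0 (io_inj (by rw [h, map_zero]))
    have k5 : quadraticChar F sb = if IsSquare y then 1 else -1 := by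
      by_cases h : IsSquare y
      · rw [if_pos h, quadraticChar_one_iff_isSquare hsb0, ← hy]
        exact (sq_io hc y).2 h
      · rw [if_neg h, quadraticChar_neg_one_iff_not_isSquare, ← hy]
        exact fun h3 => h ((sq_io hc y).1 h3)
    rw [← k5] at key
    have hAz : ((A : ℤ) : ZMod q) ≠ 0 := fun h0 => hA ((ZMod.intCast_zmod_eq_zero_iff_dvd A q).1 h0)
    have hj : jacobiSym A q = 1 ∨ jacobiSym A q = -1 := by
      rw [← jacobiSym.legendreSym.to_jacobiSym]
      exact legendreSym.eq_one_or_neg_one q hAz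
    have h4 : (4 : ℤ_[2]) ∣ ((A : ℤ_[2]) + B * t) - (δ : ℤ_[2]) := by
      apply four_dvd
      rw [PadicInt.norm_def]
      exact k2
    have hchi : quadraticChar F sb = δ * jacobiSym A q := by
      rcases quadraticChar_dichotomy hsb0 with h5 | h5 <;> rcases hδ with h6 | h6 <;> rcases hj with h7 | h7 <;>
        rw [h5, h6, h7] at key <;> rw [h5, h6, h7] <;> norm_num at key <;> norm_num
    rw [hchi]
    obtain ⟨w, hw⟩ := h4
    refine ⟨-((jacobiSym A q : ℤ) : ℤ_[2]) * w, ?_⟩
    push_cast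
    linear_combination (-((jacobiSym A q : ℤ) : ℤ_[2])) * hw
  · -- inert
    have hns : ¬ IsSquare (-(q : ZMod l)) := by
      rintro ⟨y, hy⟩
      have h3 : (io F l y) * (io F l y) = sb ^ 2 := by
        rw [← map_mul, ← hy, hsb, map_neg, map_natCast]
      have h6 : (io F l y - sb) * (io F l y + sb) = 0 := by
        linear_combination h3
      have h7 : Fintype.card F = l := by
        rcases mul_eq_zero.1 h6 with h7 | h7
        · exact card_of_root hl2 sb hsp (sub_eq_zero.1 h7)
        · exact card_of_root hl2 sb hsp (y := -y) (by rw [map_neg]; linear_combination -h7)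
      rw [hc] at h7
      have h8 : l ^ 2 = l ^ 1 := by rw [pow_one]; exact h7
      have := Nat.pow_right_injective hl.out.two_le h8
      norm_num at this
    have hB : B = 0 := by
      refine descent hl.out hq.one_lt hlq' hns (2 * n) A B ?_
      rw [hN, hc, ← pow_mul]
    subst hB
    rw [qc_inert hl2 hc sb hsb hns hlq']
    have hA2 : A ^ 2 = (((l : ℤ)) ^ n) ^ 2 := by
      rw [hc] at hN
      push_cast at hN
      linear_combination hN
    -- symbols
    have hlodd : Odd l := Nat.odd_iff.2 hodd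
    have hJ : jacobiSym (l : ℤ) q = -1 := by
      have hnd : ¬ (l : ℤ) ∣ -(q : ℤ) := by
        rw [dvd_neg]
        exact_mod_cast hlq'
      have hleg : jacobiSym (-(q : ℤ)) l = -1 := by
        rw [← jacobiSym.legendreSym.to_jacobiSym, legendreSym.eq_neg_one_iff l]
        push_cast
        exact hns
      rw [jacobiSym.neg _ hlodd] at hleg
      rcases (by omega : l % 4 = 1 ∨ l % 4 = 3) with h3 | h3
      · rw [ZMod.χ₄_nat_one_mod_four h3, one_mul] at hleg
        rw [jacobiSym.quadratic_reciprocity_one_mod_four h3 (Nat.odd_iff.2 (by omega)), hleg]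
      · rw [ZMod.χ₄_nat_three_mod_four h3] at hleg
        rw [jacobiSym.quadratic_reciprocity_three_mod_four h3 (by omega)]
        linarith
    have hJ1 : jacobiSym (-1) q = -1 := by
      rw [jacobiSym.at_neg_one (Nat.odd_iff.2 (by omega)), ZMod.χ₄_nat_three_mod_four (by omega)]
    have hprod : jacobiSym A q * A = (-(l : ℤ)) ^ n := by
      rcases sq_eq_sq_iff_eq_or_eq_neg.1 hA2 with h3 | h3
      · rw [h3, jacobiSym.pow_left, hJ, ← mul_pow]
        ring
      · rw [h3, neg_eq_neg_one_mul, jacobiSym.mul_left, jacobiSym.pow_left, hJ, hJ1, neg_eq_neg_one_mul (l : ℤ),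
          mul_pow]
        ring
    have h4 : (4 : ℤ) ∣ (-1) ^ ((l + 1) / 2) - (-(l : ℤ)) ^ n := by
      have h5 : (-(l : ℤ)) ^ n % 4 = (-(l : ℤ)) % 4 := by
        obtain ⟨k, hk⟩ := hn
        rw [hk, pow_succ, pow_mul]
        have h6 : (-(l : ℤ)) ^ 2 % 4 = 1 := by
          obtain ⟨j, hj⟩ : ∃ j, (l : ℤ) = 2 * j + 1 := ⟨(l : ℤ) / 2, by omega⟩
          rw [hj]
          have : (-(2 * j + 1)) ^ 2 = 4 * (j ^ 2 + j) + 1 := by ring
          rw [this]
          omega
        have h7 : ((-(l : ℤ)) ^ 2) ^ k % 4 = 1 := by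
          induction k with
          | zero => norm_num
          | succ k ih =>
            clear hk
            have : ∀ m : ℕ, ((-(l : ℤ)) ^ 2) ^ m % 4 = 1 := by
              intro m
              induction m with
              | zero => norm_num
              | succ m ihm => rw [pow_succ, Int.mul_emod, ihm, h6]; norm_num
            exact this _
        rw [Int.mul_emod, h7, one_mul, Int.emod_emod_of_dvd _ (dvd_refl 4)]
      rcases (by omega : l % 4 = 1 ∨ l % 4 = 3) with h3 | h3
      · have h8 : Odd ((l + 1) / 2) := by rw [Nat.odd_iff]; omega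
        rw [h8.neg_one_pow]
        omega
      · have h8 : Even ((l + 1) / 2) := by rw [Nat.even_iff]; omega
        rw [h8.neg_one_pow]
        omega
    obtain ⟨w, hw⟩ := h4
    refine ⟨(w : ℤ_[2]), ?_⟩
    have h9 : ((((-1) ^ ((l + 1) / 2) - jacobiSym A q * A : ℤ)) : ℤ_[2]) = ((4 * w : ℤ) : ℤ_[2]) := by
      rw [hprod, hw]
    push_cast at h9 ⊢
    linear_combination h9

end Pool.Agent.Q26.BKC
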